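import Pool.Agent.Lgq.Fin
import Pool.Agent.Lgp.Rone

/-!
# Slopes in finitely many cosets of a cyclic group: no cap or no cup
-/

namespace Pool.Agent.Lgq

open Pool.Agent.CTm Pool.Agent.Grm Pool.Agent.Lgp Filter

/-- at every point of the closure of the orbit of `y` the slopes of the germs of the elements of `H` come
arbitrarily close to zero -/
def NoCup (H : Subgroup (Equiv.Perm ℤ)) (y : ℕ → ℤ) : Prop :=
  ∀ z : ℕ → ℤ, Pro z → Clo H y z → ∀ ε : ℚ, 0 < ε → ∃ g ∈ H, ∃ a : ℚ × ℚ, Germ z g a ∧ a.1 ≤ ε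

theorem R0.swap {S : Set (Equiv.Perm ℤ)} {M : Set (Ultrafilter ℤ)} {M0 : ℕ} {A : Finset (ℚ × ℚ)}
    {F : Finset ℚ} {a b L1 L2 : ℕ} (R : Lgp.R0 S M M0 A F a b L1 L2) : R0 S M M0 A F b a L1 L2 := by
  have ha0 : 0 < a := by have := R.ab; omega
  refine ⟨R.fin, R.hCT, R.hd, R.mnl, R.b0, ha0, R.cop.symm, fun u hu h hh => ?_, R.fpos, R.L10, R.L20,
    R.l1, R.l12, R.l2⟩
  obtain ⟨f, hf, k, hk⟩ := R.slope u hu h hh
  refine ⟨f, hf, -k, ?_⟩
  rw [hk, zpow_neg, ← inv_zpow, inv_div]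

/-- the conclusion in rank one when there is no cup -/
theorem locAb_of_noCup (S : Finset (Equiv.Perm ℤ)) (hS : ∀ s ∈ S, s ∈ CT)
    (hexp : NoExp (S : Set (Equiv.Perm ℤ))) {y : ℕ → ℤ} (hy : Pro y)
    {lam : ℚ} (hlam : 1 < lam) (h : CyclicSlopes (Subgroup.closure (S : Set (Equiv.Perm ℤ))) lam y)
    (h' : NoCup (Subgroup.closure (S : Set (Equiv.Perm ℤ))) y) :
    ∃ z : ℕ → ℤ, Pro z ∧ Clo (Subgroup.closure (S : Set (Equiv.Perm ℤ))) y z ∧
      LocAb (Subgroup.closure (S : Set (Equiv.Perm ℤ))) z := by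
  obtain ⟨u, M, M0, A, F, L1, L2, hu, hMu, R⟩ := Lgp.exists_R0 S hS hy hlam h
  have hHCT := R.hCT
  have ha0 : 0 < lam.num.natAbs := by have := R.ab; omega
  have R' : R1 (-1) (S : Set (Equiv.Perm ℤ)) M M0 A F lam.den lam.num.natAbs L1 L2 := by
    refine { R0.swap R with e1 := Or.inr rfl, lam := ?_, up := ?_ }
    · rw [zpow_neg, zpow_one, inv_div]
      have h1 : (lam.den : ℚ) < (lam.num.natAbs : ℕ) := by exact_mod_cast R.ab
      have h2 : (0 : ℚ) < lam.den := by exact_mod_cast R.b0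
      rwa [one_lt_div h2]
    · intro v hv C
      obtain ⟨z, hz⟩ := exists_rep v
      have hC : (0 : ℚ) < max C 1 := lt_of_lt_of_le one_pos (le_max_right _ _)
      obtain ⟨g, hg, a, ha, hle⟩ := h' z hz.pro (clo_of_orb hHCT hu hz (hMu hv)) (max C 1)⁻¹
        (inv_pos.2 hC)
      refine ⟨g, hg, ?_⟩
      have h1 : sl v g = a.1 := sl_eq (gm_of_germ hz ha)
      have h2 : 0 < sl v g := sl_pos (hHCT hg)
      unfold hs
      rw [zpow_neg, zpow_one]
      rw [← h1] at hle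
      have h3 : max C 1 ≤ (sl v g)⁻¹ := by
        rw [le_inv_comm₀ hC h2]
        exact hle
      exact (le_max_left _ _).trans h3
  obtain ⟨v, hv, hloc⟩ := R'.locAb hexp
  obtain ⟨z, hz⟩ := exists_rep v
  exact ⟨z, hz.pro, clo_of_orb hHCT hu hz (hMu hv), hloc z hz⟩

/-- the conclusion in rank one: the generator is an integer, or there is no cap, or there is no cup -/
theorem locAb_of_cyclic2 (S : Finset (Equiv.Perm ℤ)) (hS : ∀ s ∈ S, s ∈ CT)
    (hexp : NoExp (S : Set (Equiv.Perm ℤ))) {y : ℕ → ℤ} (hy : Pro y)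
    {lam : ℚ} (hlam : 1 < lam) (h : CyclicSlopes (Subgroup.closure (S : Set (Equiv.Perm ℤ))) lam y)
    (h' : lam.den = 1 ∨ NoCap (Subgroup.closure (S : Set (Equiv.Perm ℤ))) y ∨
      NoCup (Subgroup.closure (S : Set (Equiv.Perm ℤ))) y) :
    ∃ z : ℕ → ℤ, Pro z ∧ Clo (Subgroup.closure (S : Set (Equiv.Perm ℤ))) y z ∧
      LocAb (Subgroup.closure (S : Set (Equiv.Perm ℤ))) z := by
  rcases h' with h1 | h1 | h1
  · exact Lgp.locAb_of_cyclic S hS hexp hy hlam h (Or.inl h1)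
  · exact Lgp.locAb_of_cyclic S hS hexp hy hlam h (Or.inr h1)
  · exact locAb_of_noCup S hS hexp hy hlam h h1

end Pool.Agent.Lgq
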