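import Mathlib

/-!
# The arithmetic of the growth
-/

namespace Pool.Agent.Lgq

/-- iteration of the inequality -/
theorem arith_quad {β : ℕ → ℕ} {K B0 c0 d0 : ℕ} (hK : 0 < K)
    (h1 : ∀ n, B0 ≤ β n → β n ^ 2 ≤ K * (n * ((Nat.clog 2 (β (3 * n)) + 2) * β (2 * n + c0))))
    (h2 : ∀ n, β n ≤ 2 ^ (d0 * n)) (h0 : 1 ≤ β 0) (hmono : Monotone β)
    (hexp : ¬ ∃ l0 : ℕ, ∀ k : ℕ, 2 ^ k ≤ β (l0 * k)) :
    ∃ K0 : ℕ, ∀ n, 1 ≤ n → β n ≤ K0 * n ^ 2 := by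
  set K1 : ℕ := K * (3 * d0 + 2) with hK1
  have hK1p : 0 < K1 := Nat.mul_pos hK (by omega)
  have h3 : ∀ n, 1 ≤ n → B0 ≤ β n → β n ^ 2 ≤ K1 * (n ^ 2 * β (2 * n + c0)) := by
    intro n hn hB
    refine (h1 n hB).trans ?_
    have e1 : Nat.clog 2 (β (3 * n)) ≤ d0 * (3 * n) := Nat.clog_le_of_le_pow (h2 _)
    have e2 : Nat.clog 2 (β (3 * n)) + 2 ≤ (3 * d0 + 2) * n := by nlinarith
    calc K * (n * ((Nat.clog 2 (β (3 * n)) + 2) * β (2 * n + c0)))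
        ≤ K * (n * (((3 * d0 + 2) * n) * β (2 * n + c0))) :=
          Nat.mul_le_mul_left _ (Nat.mul_le_mul_left _ (Nat.mul_le_mul_right _ e2))
      _ = K1 * (n ^ 2 * β (2 * n + c0)) := by rw [hK1]; ring
  set K2 : ℕ := K1 * (2 + c0) ^ 2 + B0 with hK2
  refine ⟨2 * K2, fun n hn => ?_⟩
  by_contra hlt
  rw [not_le] at hlt
  apply hexp
  set N : ℕ → ℕ := fun j => Nat.rec n (fun _ m => 2 * m + c0) j with hN
  have hN0 : N 0 = n := rfl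
  have hN1 : ∀ j, N (j + 1) = 2 * N j + c0 := fun j => rfl
  have hN2 : ∀ j, 1 ≤ N j := by
    intro j
    induction j with
    | zero => exact hn
    | succ j ih => rw [hN1]; omega
  have hN3 : ∀ j, N j + c0 = 2 ^ j * (n + c0) := by
    intro j
    induction j with
    | zero => rw [hN0, pow_zero, one_mul]
    | succ j ih =>
      rw [hN1, pow_succ]
      calc 2 * N j + c0 + c0 = 2 * (N j + c0) := by ring
        _ = 2 ^ j * 2 * (n + c0) := by rw [ih]; ring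
  have key : ∀ j, K2 * N j ^ 2 * 2 ^ (2 ^ j) ≤ β (N j) := by
    intro j
    induction j with
    | zero =>
      rw [hN0, pow_zero, pow_one]
      calc K2 * n ^ 2 * 2 = 2 * K2 * n ^ 2 := by ring
        _ ≤ β n := hlt.le
    | succ j ih =>
      have e1 : 1 ≤ N j ^ 2 := Nat.one_le_pow _ _ (hN2 j)
      have e2 : 1 ≤ 2 ^ (2 ^ j) := Nat.one_le_two_pow
      have hB : B0 ≤ β (N j) := by
        refine le_trans ?_ ih
        calc B0 ≤ K2 := by omega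
          _ = K2 * 1 * 1 := by ring
          _ ≤ K2 * N j ^ 2 * 2 ^ (2 ^ j) := Nat.mul_le_mul (Nat.mul_le_mul_left _ e1) e2
      have e3 := h3 (N j) (hN2 j) hB
      have e4 : (K2 * N j ^ 2 * 2 ^ (2 ^ j)) ^ 2 ≤ K1 * (N j ^ 2 * β (N (j + 1))) :=
        (Nat.pow_le_pow_left ih 2).trans e3
      have e5 : N (j + 1) ≤ (2 + c0) * N j := by
        rw [hN1]
        have := hN2 j
        nlinarith
      have e6 : K1 * N (j + 1) ^ 2 ≤ K2 * N j ^ 2 := by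
        calc K1 * N (j + 1) ^ 2 ≤ K1 * ((2 + c0) * N j) ^ 2 :=
              Nat.mul_le_mul_left _ (Nat.pow_le_pow_left e5 2)
          _ = (K1 * (2 + c0) ^ 2) * N j ^ 2 := by ring
          _ ≤ K2 * N j ^ 2 := Nat.mul_le_mul_right _ (by omega)
      have e7 : (K1 * N j ^ 2) * (K2 * N (j + 1) ^ 2 * 2 ^ (2 ^ (j + 1))) ≤
          (K1 * N j ^ 2) * β (N (j + 1)) := by
        calc (K1 * N j ^ 2) * (K2 * N (j + 1) ^ 2 * 2 ^ (2 ^ (j + 1)))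
            = (K1 * N (j + 1) ^ 2) * (K2 * N j ^ 2 * 2 ^ (2 ^ (j + 1))) := by ring
          _ ≤ (K2 * N j ^ 2) * (K2 * N j ^ 2 * 2 ^ (2 ^ (j + 1))) := Nat.mul_le_mul_right _ e6
          _ = (K2 * N j ^ 2 * 2 ^ (2 ^ j)) ^ 2 := by
              rw [pow_succ 2 j, pow_mul 2 (2 ^ j) 2]
              ring
          _ ≤ K1 * (N j ^ 2 * β (N (j + 1))) := e4
          _ = (K1 * N j ^ 2) * β (N (j + 1)) := by ring
      exact Nat.le_of_mul_le_mul_left e7 (Nat.mul_pos hK1p (by omega))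
  refine ⟨2 * (n + c0), fun k => ?_⟩
  rcases Nat.eq_zero_or_pos k with rfl | hk
  · simpa using h0
  obtain ⟨j, hj1, hj2⟩ : ∃ j, k ≤ 2 ^ j ∧ 2 ^ j ≤ 2 * k := by
    refine ⟨Nat.clog 2 k, Nat.le_pow_clog (by norm_num) k, ?_⟩
    rcases Nat.lt_or_ge 1 k with h | h
    · have e1 := Nat.pow_pred_clog_lt_self (b := 2) (by norm_num) h
      have e2 : 0 < Nat.clog 2 k := Nat.clog_pos (by norm_num) h
      have e3 : Nat.clog 2 k = (Nat.clog 2 k).pred + 1 := by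
        rw [Nat.pred_eq_sub_one]
        omega
      rw [e3, pow_succ]
      omega
    · have : k = 1 := by omega
      rw [this]
      simp
  have e1 := key j
  have hK2p : 1 ≤ K2 := by
    have : 1 ≤ K1 * (2 + c0) ^ 2 := Nat.mul_pos hK1p (by positivity)
    omega
  calc 2 ^ k ≤ 2 ^ (2 ^ j) := Nat.pow_le_pow_right (by norm_num) hj1
    _ = 1 * 1 * 2 ^ (2 ^ j) := by ring
    _ ≤ K2 * N j ^ 2 * 2 ^ (2 ^ j) :=
        Nat.mul_le_mul_right _ (Nat.mul_le_mul hK2p (Nat.one_le_pow _ _ (hN2 j)))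
    _ ≤ β (N j) := e1
    _ ≤ β (2 * (n + c0) * k) := by
        refine hmono ?_
        have := hN3 j
        calc N j ≤ 2 ^ j * (n + c0) := by omega
          _ ≤ (2 * k) * (n + c0) := Nat.mul_le_mul_right _ hj2
          _ = 2 * (n + c0) * k := by ring

/-- the contradiction -/
theorem arith_contra {β : ℕ → ℕ} {K B0 c0 K0 m1 : ℕ}
    (h1 : ∀ n, B0 ≤ β n → β n ^ 2 ≤ K * (n * ((Nat.clog 2 (β (3 * n)) + 2) * β (2 * n + c0))))
    (h3 : ∀ n, 1 ≤ n → β n ≤ K0 * n ^ 2) (hm1 : 1 ≤ m1)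
    (h4 : ∀ n, 1 ≤ n → n ^ 2 ≤ β (m1 * n)) : False := by
  set κ : ℕ := 9 * K0 * m1 ^ 2 with hκ
  set D : ℕ := K * m1 * (K0 * (2 + c0) ^ 2 * m1 ^ 2) with hD
  -- the choice of the scale
  obtain ⟨k, hkB, hk⟩ : ∃ k : ℕ, B0 ≤ k ∧ D * (κ + 2 * k + 2) < 2 ^ k := by
    set m : ℕ := D * (κ + 6) + B0 with hm
    refine ⟨2 * m, by omega, ?_⟩
    have e1 : m + 1 ≤ 2 ^ m := Nat.lt_two_pow_self
    have e2 : (m + 1) * (m + 1) ≤ 2 ^ (2 * m) := by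
      rw [two_mul, pow_add]
      exact Nat.mul_le_mul e1 e1
    refine lt_of_lt_of_le ?_ e2
    have e3 : D * (κ + 6) + 1 ≤ m + 1 := by omega
    calc D * (κ + 2 * (2 * m) + 2) ≤ D * ((κ + 6) * (m + 1)) := Nat.mul_le_mul_left _ (by nlinarith)
      _ = (D * (κ + 6)) * (m + 1) := by ring
      _ < (D * (κ + 6) + 1) * (m + 1) := by nlinarith
      _ ≤ (m + 1) * (m + 1) := Nat.mul_le_mul_right _ e3
  set N : ℕ := m1 * 2 ^ k with hN
  have hN1 : 1 ≤ N := Nat.mul_pos hm1 (by positivity)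
  have e1 : (2 ^ k) ^ 2 ≤ β N := h4 (2 ^ k) Nat.one_le_two_pow
  have hB : B0 ≤ β N := by
    refine le_trans ?_ e1
    have e2 : k < 2 ^ k := Nat.lt_two_pow_self
    nlinarith
  have e2 := h1 N hB
  have e3 : β (3 * N) ≤ 2 ^ (κ + 2 * k) := by
    refine (h3 _ (by omega)).trans ?_
    have e4 : κ ≤ 2 ^ κ := Nat.lt_two_pow_self.le
    calc K0 * (3 * N) ^ 2 = κ * 2 ^ (2 * k) := by
          rw [hN, hκ, pow_mul' 2 2 k]
          ring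
      _ ≤ 2 ^ κ * 2 ^ (2 * k) := Nat.mul_le_mul_right _ e4
      _ = 2 ^ (κ + 2 * k) := by rw [pow_add]
  have e4 : Nat.clog 2 (β (3 * N)) ≤ κ + 2 * k := Nat.clog_le_of_le_pow e3
  have e5 : β (2 * N + c0) ≤ K0 * (2 + c0) ^ 2 * m1 ^ 2 * (2 ^ k) ^ 2 := by
    refine (h3 _ (by omega)).trans ?_
    have e6 : 2 * N + c0 ≤ (2 + c0) * N := by nlinarith
    calc K0 * (2 * N + c0) ^ 2 ≤ K0 * ((2 + c0) * N) ^ 2 :=
          Nat.mul_le_mul_left _ (Nat.pow_le_pow_left e6 2)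
      _ = K0 * (2 + c0) ^ 2 * m1 ^ 2 * (2 ^ k) ^ 2 := by rw [hN]; ring
  have e6 : ((2 ^ k) ^ 2) ^ 2 ≤ (2 ^ k) ^ 3 * (D * (κ + 2 * k + 2)) := by
    calc ((2 ^ k) ^ 2) ^ 2 ≤ β N ^ 2 := Nat.pow_le_pow_left e1 2
      _ ≤ K * (N * ((Nat.clog 2 (β (3 * N)) + 2) * β (2 * N + c0))) := e2
      _ ≤ K * (N * ((κ + 2 * k + 2) * (K0 * (2 + c0) ^ 2 * m1 ^ 2 * (2 ^ k) ^ 2))) :=
          Nat.mul_le_mul_left _ (Nat.mul_le_mul_left _ (Nat.mul_le_mul (by omega) e5))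
      _ = (2 ^ k) ^ 3 * (D * (κ + 2 * k + 2)) := by rw [hN, hD]; ring
  have e7 : (2 ^ k) ^ 3 * 2 ^ k ≤ (2 ^ k) ^ 3 * (D * (κ + 2 * k + 2)) := by
    calc (2 ^ k) ^ 3 * 2 ^ k = ((2 ^ k) ^ 2) ^ 2 := by ring
      _ ≤ _ := e6
  have e8 := Nat.le_of_mul_le_mul_left e7 (by positivity)
  omega

end Pool.Agent.Lgq
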