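import Pool.Agent.Lgq.LemX
import Pool.Agent.Lgp.Loc

/-!
# The kernels take finitely many values on the minimal set
-/

namespace Pool.Agent.Lgq

open Pool.Agent.CTm Pool.Agent.Grm Pool.Agent.Lgp Filter Topology

theorem isOpen_gm {f : Equiv.Perm ℤ} : IsOpen {y : Ultrafilter ℤ | Gm y f (1, 0)} := by
  rw [isOpen_iff_forall_mem_open]
  rintro y ⟨r, Q, hQ, h1, h2⟩
  exact ⟨{z : Ultrafilter ℤ | cl r Q ∈ z}, fun z hz => ⟨r, Q, hQ, hz, h2⟩,
    ultrafilter_isOpen_basic _, h1⟩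

theorem isClosed_gm {f : Equiv.Perm ℤ} (hf : f ∈ CT) :
    IsClosed {y : Ultrafilter ℤ | Gm y f (1, 0)} := by
  rw [← isOpen_compl_iff, isOpen_iff_forall_mem_open]
  intro y hy
  obtain ⟨r, Q, hQ, h1, h2⟩ := sl_loc (u := y) hf
  refine ⟨{z : Ultrafilter ℤ | cl r Q ∈ z}, fun z hz hz' => hy ?_, ultrafilter_isOpen_basic _, h1⟩
  have h3 := (h2 z hz).unique hz'
  have h4 := h2 y h1
  rw [h3] at h4
  exact h4

theorem isClosed_KS {H : Subgroup (Equiv.Perm ℤ)} (hH : H ≤ CT) (g : Equiv.Perm ℤ)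
    (K : Subgroup (Equiv.Perm ℤ)) : IsClosed {x : Ultrafilter ℤ | KS H (act g x) = K} := by
  have h1 : {x : Ultrafilter ℤ | KS H (act g x) = K} =
      ⋂ f : Equiv.Perm ℤ, {x : Ultrafilter ℤ | f ∈ KS H (act g x) ↔ f ∈ K} := by
    ext x
    simp only [Set.mem_setOf_eq, Set.mem_iInter]
    exact ⟨fun h f => by rw [h], fun h => SetLike.ext h⟩
  rw [h1]
  refine isClosed_iInter fun f => ?_
  by_cases hf : f ∈ H
  · have h2 : {x : Ultrafilter ℤ | f ∈ KS H (act g x)} = act g ⁻¹' {y | Gm y f (1, 0)} := by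
      ext x
      simp only [Set.mem_setOf_eq, Set.mem_preimage, mem_KS]
      exact ⟨fun h => h.2, fun h => ⟨hf, h⟩⟩
    by_cases hK : f ∈ K
    · have h3 : {x : Ultrafilter ℤ | f ∈ KS H (act g x) ↔ f ∈ K} = act g ⁻¹' {y | Gm y f (1, 0)} := by
        rw [← h2]
        ext x
        simp [hK]
      rw [h3]
      exact (isClosed_gm (hH hf)).preimage (act_continuous g)
    · have h3 : {x : Ultrafilter ℤ | f ∈ KS H (act g x) ↔ f ∈ K} =
          (act g ⁻¹' {y | Gm y f (1, 0)})ᶜ := by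
        rw [← h2]
        ext x
        simp [hK]
      rw [h3, isClosed_compl_iff]
      exact isOpen_gm.preimage (act_continuous g)
  · have h2 : {x : Ultrafilter ℤ | f ∈ KS H (act g x) ↔ f ∈ K} = {_x : Ultrafilter ℤ | f ∉ K} := by
      ext x
      simp only [Set.mem_setOf_eq, mem_KS]
      tauto
    rw [h2]
    exact isClosed_const

theorem KS_conj {H : Subgroup (Equiv.Perm ℤ)} (hH : H ≤ CT) {g f : Equiv.Perm ℤ} (hg : g ∈ H)
    {x : Ultrafilter ℤ} : f ∈ KS H (act g x) ↔ g⁻¹ * f * g ∈ KS H x := by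
  constructor
  · rintro ⟨h1, h2⟩
    have h3 := h2.conj_id (inv_mem (hH hg))
    rw [act_inv, inv_inv] at h3
    exact ⟨mul_mem (mul_mem (inv_mem hg) h1) hg, h3⟩
  · rintro ⟨h1, h2⟩
    have h3 := h2.conj_id (hH hg)
    have h4 : g * (g⁻¹ * f * g) * g⁻¹ = f := by group
    rw [h4] at h3
    have h5 : f ∈ H := by
      rw [← h4]
      exact mul_mem (mul_mem hg h1) (inv_mem hg)
    exact ⟨h5, h3⟩

theorem KS_of_conj {H : Subgroup (Equiv.Perm ℤ)} (hH : H ≤ CT) {g : Equiv.Perm ℤ} (hg : g ∈ H)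
    {x y : Ultrafilter ℤ} (h : KS H (act g x) = KS H (act g y)) : KS H x = KS H y := by
  have key : ∀ x y : Ultrafilter ℤ, KS H (act g x) = KS H (act g y) → ∀ f ∈ KS H x, f ∈ KS H y := by
    intro x y h f hf
    have h1 : g * f * g⁻¹ ∈ KS H (act g x) := by
      rw [KS_conj hH hg]
      have : g⁻¹ * (g * f * g⁻¹) * g = f := by group
      rwa [this]
    rw [h, KS_conj hH hg] at h1
    have : g⁻¹ * (g * f * g⁻¹) * g = f := by group
    rwa [this] at h1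
  exact le_antisymm (key x y h) (key y x h.symm)

/-- Baire: if every point of the minimal set has, after an element of `H`, a kernel in a countable list, then the
kernels take finitely many values -/
theorem fin_KS {S : Set (Equiv.Perm ℤ)} (hS : S.Finite) (hCT : Subgroup.closure S ≤ CT)
    {M : Set (Ultrafilter ℤ)} (hM : Mnl (Subgroup.closure S) M)
    (K : ℤ → Subgroup (Equiv.Perm ℤ))
    (h : ∀ x ∈ M, ∃ g ∈ Subgroup.closure S, ∃ ρ : ℤ, KS (Subgroup.closure S) (act g x) = K ρ) :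
    ∃ (T : Finset (Equiv.Perm ℤ)) (K0 : Subgroup (Equiv.Perm ℤ)), (∀ g ∈ T, g ∈ Subgroup.closure S) ∧
      ∀ x ∈ M, ∃ g ∈ T, KS (Subgroup.closure S) (act g x) = K0 := by
  classical
  set H := Subgroup.closure S with hH
  have hfin : Finite {s : Equiv.Perm ℤ // s ∈ S ∨ s⁻¹ ∈ S} := by
    have h1 : {s : Equiv.Perm ℤ | s ∈ S ∨ s⁻¹ ∈ S}.Finite := by
      refine (hS.union (hS.image fun s => s⁻¹)).subset ?_
      rintro s (hs | hs)
      · exact Or.inl hs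
      · exact Or.inr ⟨s⁻¹, hs, inv_inv s⟩
    exact h1.to_subtype
  have : Countable (List {s : Equiv.Perm ℤ // s ∈ S ∨ s⁻¹ ∈ S} × ℤ) := inferInstance
  have : CompactSpace M := isCompact_iff_compactSpace.1 hM.closed.isCompact
  have : Nonempty M := hM.ne.to_subtype
  set wd : List {s : Equiv.Perm ℤ // s ∈ S ∨ s⁻¹ ∈ S} → Equiv.Perm ℤ :=
    fun l => (l.map Subtype.val).prod with hwd
  have hwd1 : ∀ l, wd l ∈ H := by
    intro l
    refine list_mem fun x hx => ?_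
    obtain ⟨y, _, rfl⟩ := List.mem_map.1 hx
    exact y.2
  have hwd2 : ∀ g ∈ H, ∃ l, wd l = g := by
    intro g hg
    obtain ⟨l, hl, rfl⟩ := list_of_closure hg
    refine ⟨l.attach.map fun x => ⟨x.1, hl x.1 x.2⟩, ?_⟩
    simp only [hwd, List.map_map]
    congr 1
    conv_rhs => rw [← List.attach_map_subtype_val l]
    rfl
  set W : List {s : Equiv.Perm ℤ // s ∈ S ∨ s⁻¹ ∈ S} × ℤ → Set M :=
    fun i => {x : M | KS H (act (wd i.1) x) = K i.2} with hW
  have hcl : ∀ i, IsClosed (W i) := fun i =>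
    (isClosed_KS hCT (wd i.1) (K i.2)).preimage continuous_subtype_val
  have hun : ⋃ i, W i = Set.univ := by
    ext x
    simp only [Set.mem_iUnion, Set.mem_univ, iff_true]
    obtain ⟨g, hg, ρ, h1⟩ := h x x.2
    obtain ⟨l, rfl⟩ := hwd2 g hg
    exact ⟨(l, ρ), h1⟩
  obtain ⟨⟨l, ρ⟩, x0, hx0⟩ := nonempty_interior_of_iUnion_of_closed hcl hun
  obtain ⟨O, hO, hO'⟩ := isOpen_induced_iff.1 (isOpen_interior (s := W (l, ρ)))
  have hx0O : (x0 : Ultrafilter ℤ) ∈ O := by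
    have : x0 ∈ Subtype.val ⁻¹' O := by rw [hO']; exact hx0
    exact this
  obtain ⟨_, ⟨B, rfl⟩, hB1, hB2⟩ := ultrafilterBasis_is_basis.exists_subset_of_mem_open hx0O hO
  have hBK : ∀ x ∈ M, B ∈ x → KS H (act (wd l) x) = K ρ := by
    intro x hx hBx
    have h1 : (⟨x, hx⟩ : M) ∈ Subtype.val ⁻¹' O := hB2 hBx
    rw [hO'] at h1
    have h2 : (⟨x, hx⟩ : M) ∈ W (l, ρ) := interior_subset h1
    exact h2
  obtain ⟨T, hT, hT'⟩ := finite_cover hM.closed (fun g => g ∈ H) (fun g : Equiv.Perm ℤ => g ⁻¹' B) (by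
    intro u hu
    obtain ⟨g, hg, h1⟩ := hM.hit hu x0.2 hB1
    exact ⟨g, hg, h1⟩)
  refine ⟨T.image fun g => wd l * g, K ρ, ?_, ?_⟩
  · intro g hg
    obtain ⟨g', hg', rfl⟩ := Finset.mem_image.1 hg
    exact mul_mem (hwd1 l) (hT g' hg')
  · intro x hx
    obtain ⟨g, hg, h1⟩ := hT' x hx
    refine ⟨wd l * g, Finset.mem_image_of_mem _ hg, ?_⟩
    rw [act_mul]
    exact hBK _ (hM.inv g (hT g hg) x hx) h1

/-- finitely many types along the orbit -/
theorem types_of_fin {H : Subgroup (Equiv.Perm ℤ)} (hH : H ≤ CT) {u : Ultrafilter ℤ}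
    {M : Set (Ultrafilter ℤ)} (hM : Mnl H M) (hu : u ∈ M)
    {T : Finset (Equiv.Perm ℤ)} {K0 : Subgroup (Equiv.Perm ℤ)} (hT : ∀ g ∈ T, g ∈ H)
    (hT' : ∀ x ∈ M, ∃ g ∈ T, KS H (act g x) = K0) :
    ∃ T' : Finset (Equiv.Perm ℤ), (∀ t ∈ T', t ∈ H) ∧
      ∀ h ∈ H, ∃ t ∈ T', KS H (act h u) = KS H (act t u) := by
  classical
  have h1 : ∀ g : Equiv.Perm ℤ, ∃ t ∈ H, (∃ h ∈ H, KS H (act g (act h u)) = K0) →
      KS H (act g (act t u)) = K0 := by
    intro g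
    by_cases h : ∃ h ∈ H, KS H (act g (act h u)) = K0
    · obtain ⟨h, hh, h2⟩ := h
      exact ⟨h, hh, fun _ => h2⟩
    · exact ⟨1, one_mem _, fun h' => absurd h' h⟩
  choose t ht1 ht2 using h1
  refine ⟨T.image t, ?_, fun h hh => ?_⟩
  · intro x hx
    obtain ⟨g, _, rfl⟩ := Finset.mem_image.1 hx
    exact ht1 g
  · obtain ⟨g, hg, h2⟩ := hT' _ (hM.inv h hh u hu)
    refine ⟨t g, Finset.mem_image_of_mem _ hg, ?_⟩
    have h3 := ht2 g ⟨h, hh, h2⟩
    exact KS_of_conj hH (hT g hg) (h2.trans h3.symm)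

end Pool.Agent.Lgq
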