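import Pool.Agent.Lgq.Grw
import Pool.Agent.Lgq.Bai
import Pool.Agent.Lgp.Core

/-!
# The germs at a recurrent point are virtually abelian
-/

namespace Pool.Agent.Lgq

open Pool.Agent.CTm Pool.Agent.Grm Pool.Agent.Lgp Filter

variable {S : Set (Equiv.Perm ℤ)} {M : Set (Ultrafilter ℤ)} {M0 : ℕ} {A : Finset (ℚ × ℚ)}
  {F : Finset ℚ} {a b L1 L2 : ℕ} {e : ℤ}

/-- elements in different cosets -/
theorem coset_ball {A0 : Subgroup (Equiv.Perm ℤ)}
    (hnf : ¬ (A0.subgroupOf (Subgroup.closure S)).FiniteIndex) (m : ℕ) :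
    ∃ Y : Finset (Equiv.Perm ℤ), Y.card = m + 1 ∧ (∀ h ∈ Y, h ∈ ball S m) ∧
      ∀ h ∈ Y, ∀ h' ∈ Y, h⁻¹ * h' ∈ A0 → h = h' := by
  classical
  induction m with
  | zero =>
    refine ⟨{1}, by simp, ?_, ?_⟩
    · intro h hh
      rw [Finset.mem_singleton.1 hh]
      exact one_mem_ball
    · intro h hh h' hh' _
      rw [Finset.mem_singleton.1 hh, Finset.mem_singleton.1 hh']
  | succ m ih =>
    obtain ⟨Y, hY1, hY2, hY3⟩ := ih
    by_cases hall : ∀ g ∈ ball S (m + 1), ∃ y ∈ Y, y⁻¹ * g ∈ A0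
    · exfalso
      have h1 : ∀ l : List (Equiv.Perm ℤ), (∀ x ∈ l, x ∈ S ∨ x⁻¹ ∈ S) →
          ∃ y ∈ Y, y⁻¹ * l.prod ∈ A0 := by
        intro l
        induction l with
        | nil =>
          intro _
          exact hall 1 one_mem_ball
        | cons s l ih =>
          intro hl
          obtain ⟨y, hy, h2⟩ := ih (fun x hx => hl x (by simp [hx]))
          have h3 : s * y ∈ ball S (m + 1) := by
            have h4 : s ∈ ball S 1 := ⟨[s], by simp, by simpa using hl s (by simp), by simp⟩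
            have h5 := ball_mul h4 (hY2 y hy)
            rwa [add_comm] at h5
          obtain ⟨y', hy', h4⟩ := hall _ h3
          refine ⟨y', hy', ?_⟩
          have h5 := mul_mem h4 h2
          have h6 : y'⁻¹ * (s * y) * (y⁻¹ * l.prod) = y'⁻¹ * (s :: l).prod := by
            rw [List.prod_cons]
            group
          rwa [h6] at h5
      apply hnf
      have hfin : Finite (Subgroup.closure S ⧸ A0.subgroupOf (Subgroup.closure S)) := by
        have hsur : Function.Surjective (fun y : Y =>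
            (QuotientGroup.mk (⟨y.1, ball_mem (hY2 y.1 y.2)⟩ : Subgroup.closure S) :
              Subgroup.closure S ⧸ A0.subgroupOf (Subgroup.closure S))) := by
          intro q
          obtain ⟨g, rfl⟩ := QuotientGroup.mk_surjective q
          obtain ⟨l, hl, hlg⟩ := list_of_closure g.2
          obtain ⟨y, hy, h2⟩ := h1 l hl
          refine ⟨⟨y, hy⟩, ?_⟩
          simp only
          rw [QuotientGroup.eq, Subgroup.mem_subgroupOf]
          rw [hlg] at h2
          exact h2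
        exact Finite.of_surjective _ hsur
      exact Subgroup.finiteIndex_of_finite_quotient
    · push Not at hall
      obtain ⟨g, hg, h1⟩ := hall
      have hgY : g ∉ Y := fun h => h1 g h (by rw [inv_mul_cancel]; exact one_mem _)
      refine ⟨insert g Y, by rw [Finset.card_insert_of_notMem hgY, hY1], ?_, ?_⟩
      · intro h hh
        rcases Finset.mem_insert.1 hh with rfl | hh
        · exact hg
        · exact ball_mono (Nat.le_succ m) (hY2 h hh)
      · intro h hh h' hh' hA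
        rcases Finset.mem_insert.1 hh with e1 | e1
        · rcases Finset.mem_insert.1 hh' with e2 | e2
          · rw [e1, e2]
          · exfalso
            rw [e1] at hA
            have h2 := inv_mem hA
            rw [mul_inv_rev, inv_inv] at h2
            exact h1 h' e2 h2
        · rcases Finset.mem_insert.1 hh' with e2 | e2
          · rw [e2] at hA
            exact absurd hA (h1 h e1)
          · exact hY3 h e1 h' e2 hA

theorem pow_ball {g : Equiv.Perm ℤ} {lg : ℕ} (hg : g ∈ ball S lg) (i : ℕ) : g ^ i ∈ ball S (lg * i) := by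
  induction i with
  | zero => exact ⟨[], by simp, by simp, by simp⟩
  | succ i ih =>
    rw [pow_succ, Nat.mul_succ]
    exact ball_mul ih hg

/-- the germs at some point are virtually abelian -/
theorem R1.locAb (R : R1 e S M M0 A F a b L1 L2) (hexp : NoExp S) : ∃ v ∈ M, ∀ y : ℕ → ℤ, Rep v y →
    LocAb (Subgroup.closure S) y := by
  classical
  obtain ⟨c0, hc0⟩ := R.exists_rec
  obtain ⟨c1, hc1⟩ := R.lemX hexp
  obtain ⟨c2, hc2⟩ := R.no_pow hexp
  set c : ℕ := max c0 (max c1 c2) with hc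
  have k0 : c0 ≤ c := le_max_left _ _
  have k1 : c1 ≤ c := (le_max_left _ _).trans (le_max_right _ _)
  have k2 : c2 ≤ c := (le_max_right _ _).trans (le_max_right _ _)
  obtain ⟨x, hx⟩ := R.mnl.ne
  obtain ⟨h, hh, ρ, hrec, κ, g, r, r', hκ, hg, hmk, _, hrec'⟩ := hc0 c k0 L2 R.l12 R.L20 x hx
  have hv := R.mnl.mem hh hx
  set v := act h x with hvdef
  have hgv := R.mnl.mem hg hv
  have hX := hc1 c k1 L2 dvd_rfl R.L20
  -- the kernels take finitely many values
  have hKfin : ∃ K : ℤ → Subgroup (Equiv.Perm ℤ), ∀ x ∈ M, ∃ g ∈ Subgroup.closure S, ∃ ρ : ℤ,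
      KS (Subgroup.closure S) (act g x) = K ρ := by
    refine ⟨fun ρ => if h : ∃ w ∈ M, Rec S a b (L2 * a ^ c * b ^ c) ρ w then
      KS (Subgroup.closure S) h.choose else ⊥, fun x hx => ?_⟩
    obtain ⟨h, hh, ρ, hrec, _⟩ := hc0 c k0 L2 R.l12 R.L20 x hx
    refine ⟨h, hh, ρ, ?_⟩
    have hhx := R.mnl.mem hh hx
    have hex : ∃ w ∈ M, Rec S a b (L2 * a ^ c * b ^ c) ρ w := ⟨_, hhx, hrec⟩
    simp only [dif_pos hex]
    obtain ⟨hw1, hw2⟩ := hex.choose_spec
    refine le_antisymm ?_ ?_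
    · rintro f ⟨hf1, hf2⟩
      exact ⟨hf1, hX _ hhx _ hw1 ρ hrec hw2 f hf1 hf2⟩
    · rintro f ⟨hf1, hf2⟩
      exact ⟨hf1, hX _ hw1 _ hhx ρ hw2 hrec f hf1 hf2⟩
  obtain ⟨K, hK⟩ := hKfin
  obtain ⟨T0, K0, hT0, hT0'⟩ := fin_KS R.fin R.hCT R.mnl K hK
  obtain ⟨T, hT, htype⟩ := types_of_fin R.hCT R.mnl hv hT0 hT0'
  obtain ⟨ct, hct⟩ : ∃ ct : ℕ, ∀ t ∈ T, t ∈ ball S ct := by
    have h1 : ∀ t : Equiv.Perm ℤ, ∃ m : ℕ, t ∈ T → t ∈ ball S m := by
      intro t
      by_cases ht : t ∈ T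
      · obtain ⟨m, hm⟩ := mem_ball_of_closure (hT t ht)
        exact ⟨m, fun _ => hm⟩
      · exact ⟨0, fun h => absurd h ht⟩
    choose m hm using h1
    exact ⟨T.sup m, fun t ht => ball_mono (Finset.le_sup ht) (hm t ht)⟩
  set H := Subgroup.closure S with hH
  have hHCT := R.hCT
  -- `g` normalises the kernel
  have hn1 : ∀ k ∈ KS H v, g * k * g⁻¹ ∈ KS H v := by
    rintro k ⟨hk1, hk2⟩
    have h1 : g * k * g⁻¹ ∈ H := mul_mem (mul_mem hg hk1) (inv_mem hg)
    exact ⟨h1, hX _ hgv v hv ρ hrec' hrec _ h1 (hk2.conj_id (hHCT hg))⟩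
  have hn2 : ∀ k ∈ KS H v, g⁻¹ * k * g ∈ KS H v := by
    rintro k ⟨hk1, hk2⟩
    have h1 : g⁻¹ * k * g ∈ H := mul_mem (mul_mem (inv_mem hg) hk1) hg
    have h2 := hX v hv _ hgv ρ hrec hrec' _ hk1 hk2
    have h3 := h2.conj_id (inv_mem (hHCT hg))
    rw [act_inv, inv_inv] at h3
    exact ⟨h1, h3⟩
  have hn := conj_zpow hn1 hn2
  -- no power of `g` is in the kernel
  have hpow : ∀ j : ℤ, g ^ j ∈ KS H v → j = 0 := by
    intro j hj
    by_contra hj0
    have h1 : g ^ j.natAbs ∈ KS H v := by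
      rcases Int.natAbs_eq j with h | h
      · rw [h, zpow_natCast] at hj
        exact hj
      · rw [h, zpow_neg, zpow_natCast] at hj
        exact (Subgroup.inv_mem_iff _).1 hj
    obtain ⟨i, hi⟩ : ∃ i, j.natAbs = i + 1 := ⟨j.natAbs - 1, by omega⟩
    rw [hi] at h1
    exact hc2 c k2 L2 dvd_rfl R.L20 v hv ρ hrec κ g r r' hκ hg hmk i h1.2
  set A0 := extG (KS H v) g hn with hA0
  have hA0H : A0 ≤ H := by
    rintro _ ⟨i, k, hk, rfl⟩
    exact mul_mem (zpow_mem hg i) hk.1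
  -- finite index
  have hfi : (A0.subgroupOf H).FiniteIndex := by
    by_contra hinf
    obtain ⟨lg, hlg⟩ := mem_ball_of_closure hg
    refine R.quad hexp hv hct htype (m1 := lg + 1) (by omega) fun n _ => ?_
    obtain ⟨Y, hY1, hY2, hY3⟩ := coset_ball hinf n
    have hYH : ∀ y ∈ Y, y ∈ H := fun y hy => ball_mem (hY2 y hy)
    have hinj : ∀ y ∈ Y, ∀ y' ∈ Y, ∀ i i' : ℕ, gr v (y * g ^ i) = gr v (y' * g ^ i') →
        y = y' ∧ i = i' := by
      intro y hy y' hy' i i' he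
      have m1 : y * g ^ i ∈ H := mul_mem (hYH y hy) (pow_mem hg i)
      have m2 : y' * g ^ i' ∈ H := mul_mem (hYH y' hy') (pow_mem hg i')
      have h3 : (y' * g ^ i')⁻¹ * (y * g ^ i) ∈ KS H v :=
        ⟨mul_mem (inv_mem m2) m1, gr_gm (hHCT m1) (hHCT m2) he⟩
      have h4 : y'⁻¹ * y ∈ A0 := by
        refine ⟨(i' : ℤ) - i, _, hn i _ h3, ?_⟩
        group
      have h5 := hY3 y' hy' y hy h4
      subst h5
      refine ⟨rfl, ?_⟩
      have h6 : (y' * g ^ i')⁻¹ * (y' * g ^ i) = g ^ ((i : ℤ) - i') := by group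
      rw [h6] at h3
      have := hpow _ h3
      omega
    have hsub : (Y ×ˢ Finset.range (n + 1)).image (fun c => gr v (c.1 * g ^ c.2)) ⊆
        BF R.fin v ((lg + 1) * n) := by
      intro p hp
      obtain ⟨⟨y, i⟩, hc, rfl⟩ := Finset.mem_image.1 hp
      obtain ⟨hy, hi⟩ := Finset.mem_product.1 hc
      simp only at hy hi ⊢
      rw [Finset.mem_range] at hi
      refine mem_BF.2 ⟨_, ?_, rfl⟩
      have h1 := ball_mul (hY2 y hy) (pow_ball hlg i)
      refine ball_mono ?_ h1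
      have : lg * i ≤ lg * n := Nat.mul_le_mul_left _ (by omega)
      calc n + lg * i ≤ n + lg * n := Nat.add_le_add_left this _
        _ = (lg + 1) * n := by ring
    refine le_trans ?_ (Finset.card_le_card hsub)
    rw [Finset.card_image_of_injOn, Finset.card_product, hY1, Finset.card_range]
    · nlinarith
    · rintro ⟨y, i⟩ hc ⟨y', i'⟩ hc' he
      obtain ⟨hy, _⟩ := Finset.mem_product.1 (Finset.mem_coe.1 hc)
      obtain ⟨hy', _⟩ := Finset.mem_product.1 (Finset.mem_coe.1 hc')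
      simp only at he hy hy'
      obtain ⟨e1, e2⟩ := hinj y hy y' hy' i i' he
      rw [e1, e2]
  refine ⟨v, hv, fun y hy => ?_⟩
  obtain ⟨Lc, hL1, hL2, hL3, hL4⟩ := exists_core hfi
  refine ⟨Lc, hL2, hL3, fun p hp q hq w hw => ?_⟩
  have hp' : w⁻¹ * p * w ∈ A0 := by
    have := hL4 w⁻¹ (inv_mem hw) p hp
    rw [inv_inv] at this
    exact hL1 this
  have hq' : w⁻¹ * q * w ∈ A0 := by
    have := hL4 w⁻¹ (inv_mem hw) q hq
    rw [inv_inv] at this
    exact hL1 this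
  obtain ⟨i, k, hk, e1⟩ := hp'
  obtain ⟨j, k', hk', e2⟩ := hq'
  have hcom : w⁻¹ * (p * q * p⁻¹ * q⁻¹) * w ∈ KS H v := by
    have e3 : w⁻¹ * (p * q * p⁻¹ * q⁻¹) * w =
        (w⁻¹ * p * w) * (w⁻¹ * q * w) * (w⁻¹ * p * w)⁻¹ * (w⁻¹ * q * w)⁻¹ := by group
    rw [e3, e1, e2]
    have e4 : g ^ i * k * (g ^ j * k') * (g ^ i * k)⁻¹ * (g ^ j * k')⁻¹ =
        (g ^ i * k * (g ^ i)⁻¹) * (g ^ (i + j) * (k' * k⁻¹) * (g ^ (i + j))⁻¹) *
          (g ^ j * k'⁻¹ * (g ^ j)⁻¹) := by group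
    rw [e4]
    exact mul_mem (mul_mem (hn _ _ hk) (hn _ _ (mul_mem hk' (inv_mem hk)))) (hn _ _ (inv_mem hk'))
  obtain ⟨i0, hi0⟩ := hcom.2.germ hy
  refine ⟨i0, fun n hn => ?_⟩
  have h1 := hi0 n hn
  simp only [one_mul, add_zero] at h1
  have h2 : (w⁻¹ * (p * q * p⁻¹ * q⁻¹) * w) n = n := by exact_mod_cast h1
  have h3 : w⁻¹ ((p * q * p⁻¹ * q⁻¹) (w n)) = n := by
    simpa only [Equiv.Perm.mul_apply] using h2
  have h4 : (p * q * p⁻¹ * q⁻¹) (w n) = w n := by
    rw [← h3]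
    have : w (w⁻¹ ((p * q * p⁻¹ * q⁻¹) (w n))) = (p * q * p⁻¹ * q⁻¹) (w n) :=
      w.apply_symm_apply _
    rw [h3] at this ⊢
    exact this.symm
  exact h4

end Pool.Agent.Lgq
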