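import Pool.Agent.Lgp.Mk
import Pool.Agent.Lgp.Path
import Pool.Agent.Lgp.R1

/-!
# The setting of rank one with a direction

`e = 1` or `e = -1`; the height of a germ is its slope to the power `e`.
-/

namespace Pool.Agent.Lgq

open Pool.Agent.CTm Pool.Agent.Grm Pool.Agent.Lgp Filter Nat Topology

/-- the height -/
noncomputable def hs (e : ℤ) (u : Ultrafilter ℤ) (h : Equiv.Perm ℤ) : ℚ := sl u h ^ e

theorem hs_mul {e : ℤ} {u : Ultrafilter ℤ} {g h : Equiv.Perm ℤ} (hg : g ∈ CT) (hh : h ∈ CT) :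
    hs e u (g * h) = hs e (act h u) g * hs e u h := by
  unfold hs
  rw [sl_mul hg hh, mul_zpow]

theorem hs_one {e : ℤ} {u : Ultrafilter ℤ} : hs e u 1 = 1 := by
  unfold hs
  rw [sl_one, one_zpow]

theorem hs_pos {e : ℤ} {u : Ultrafilter ℤ} {h : Equiv.Perm ℤ} (hh : h ∈ CT) : 0 < hs e u h :=
  zpow_pos (sl_pos hh) _

theorem hs_loc {e : ℤ} {u : Ultrafilter ℤ} {h : Equiv.Perm ℤ} (hh : h ∈ CT) :
    ∃ (r : ℤ) (Q : ℕ), 0 < Q ∧ cl r Q ∈ u ∧ ∀ v : Ultrafilter ℤ, cl r Q ∈ v →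
      hs e v h = hs e u h := by
  obtain ⟨r, Q, hQ, h1, h2⟩ := sl_loc (u := u) hh
  refine ⟨r, Q, hQ, h1, fun v hv => ?_⟩
  unfold hs
  rw [sl_eq (h2 v hv)]

/-- the setting: `M` is a minimal set, the slopes are in the cosets `f λ ^ ℤ`, `λ = a / b` -/
structure R0 (S : Set (Equiv.Perm ℤ)) (M : Set (Ultrafilter ℤ)) (M0 : ℕ) (A : Finset (ℚ × ℚ))
    (F : Finset ℚ) (a b L1 L2 : ℕ) : Prop where
  fin : S.Finite
  hCT : Subgroup.closure S ≤ CT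
  hd : Data S M0 A
  mnl : Mnl (Subgroup.closure S) M
  a0 : 0 < a
  b0 : 0 < b
  cop : Nat.Coprime a b
  slope : ∀ u ∈ M, ∀ h ∈ Subgroup.closure S, ∃ f ∈ F, ∃ k : ℤ, sl u h = f * ((a : ℚ) / b) ^ k
  fpos : ∀ f ∈ F, 0 < f
  L10 : 0 < L1
  L20 : 0 < L2
  l1 : ∀ f ∈ F, ∃ t : ℤ, f * L1 = M0 * t
  l12 : L1 ∣ L2
  l2 : ∀ f ∈ F, ∃ t : ℤ, f * L2 = L1 * t

/-- the setting with ascents: the heights are unbounded at every point -/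
structure R1 (e : ℤ) (S : Set (Equiv.Perm ℤ)) (M : Set (Ultrafilter ℤ)) (M0 : ℕ) (A : Finset (ℚ × ℚ))
    (F : Finset ℚ) (a b L1 L2 : ℕ) : Prop extends R0 S M M0 A F a b L1 L2 where
  e1 : e = 1 ∨ e = -1
  lam : 1 < ((a : ℚ) / b) ^ e
  up : ∀ u ∈ M, ∀ C : ℚ, ∃ h ∈ Subgroup.closure S, C ≤ hs e u h

theorem letter_hs {S : Set (Equiv.Perm ℤ)} {M0 : ℕ} {A : Finset (ℚ × ℚ)} (hd : Data S M0 A)
    {e : ℤ} (he : e = 1 ∨ e = -1) :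
    ∃ C : ℚ, 1 ≤ C ∧ ∀ (u : Ultrafilter ℤ) (s : Equiv.Perm ℤ), (s ∈ S ∨ s⁻¹ ∈ S) →
      C⁻¹ ≤ hs e u s ∧ hs e u s ≤ C := by
  obtain ⟨C, hC, hC'⟩ := letter_bound hd
  refine ⟨C, hC, fun u s hs' => ?_⟩
  obtain ⟨h1, h2, _⟩ := hC' u s hs'
  have hC0 : 0 < C := by linarith
  have hpos : 0 < sl u s := lt_of_lt_of_le (inv_pos.2 hC0) h1
  unfold hs
  rcases he with rfl | rfl
  · rw [zpow_one]
    exact ⟨h1, h2⟩
  · rw [zpow_neg, zpow_one]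
    refine ⟨inv_anti₀ hpos h2, ?_⟩
    rw [inv_le_comm₀ hpos hC0]
    exact h1

theorem word_hs {S : Set (Equiv.Perm ℤ)} (hCT : Subgroup.closure S ≤ CT) {e : ℤ} {C : ℚ} (hC : 1 ≤ C)
    (h : ∀ (u : Ultrafilter ℤ) (s : Equiv.Perm ℤ), (s ∈ S ∨ s⁻¹ ∈ S) → C⁻¹ ≤ hs e u s ∧ hs e u s ≤ C)
    (u : Ultrafilter ℤ) (l : List (Equiv.Perm ℤ)) (hl : Ltr S l) {n : ℕ} (hn : l.length ≤ n) :
    (C⁻¹) ^ n ≤ hs e u l.prod ∧ hs e u l.prod ≤ C ^ n := by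
  have hC0 : 0 < C := by linarith
  have hC1 : 0 < C⁻¹ := inv_pos.2 hC0
  have key : (C⁻¹) ^ l.length ≤ hs e u l.prod ∧ hs e u l.prod ≤ C ^ l.length := by
    clear hn
    induction l with
    | nil =>
      rw [List.prod_nil, hs_one]
      simp
    | cons s l ih =>
      have hl' : Ltr S l := hl.suffix (List.suffix_cons s l)
      have hs' := hl s (by simp)
      obtain ⟨h1, h2⟩ := ih hl'
      obtain ⟨h3, h4⟩ := h (act l.prod u) s hs'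
      rw [List.prod_cons, hs_mul (hCT (gen_mem hs')) (hCT hl'.mem), List.length_cons,
        _root_.pow_succ', _root_.pow_succ']
      have h5 : 0 < hs e u l.prod := hs_pos (hCT hl'.mem)
      exact ⟨mul_le_mul h3 h1 (pow_nonneg hC1.le _) (hC1.le.trans h3),
        mul_le_mul h4 h2 h5.le hC0.le⟩
  refine ⟨le_trans ?_ key.1, key.2.trans (pow_le_pow_right₀ hC hn)⟩
  exact pow_le_pow_of_le_one hC1.le (inv_le_one_of_one_le₀ hC) hn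

section pow
variable {F : Finset ℚ} {lam : ℚ}

theorem lowk (hl : 1 < lam) (hF : ∀ f ∈ F, 0 < f) {δ : ℚ} (hδ : 0 < δ) :
    ∃ α : ℕ, ∀ f ∈ F, ∀ k : ℤ, δ ≤ f * lam ^ k → -(α : ℤ) ≤ k := by
  obtain ⟨B, hB, hB'⟩ := fin_bound F hF
  obtain ⟨α, hα⟩ := pow_unbounded_of_one_lt (B / δ) hl
  refine ⟨α, fun f hf k hk => ?_⟩
  by_contra hlt
  have h1 : lam ^ k ≤ lam ^ (-(α : ℤ)) := zpow_le_zpow_right₀ hl.le (by omega)
  have h2 : f * lam ^ k ≤ B * lam ^ (-(α : ℤ)) :=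
    mul_le_mul (hB' f hf).1 h1 (zpow_nonneg (by linarith) _) (by linarith)
  rw [zpow_neg, zpow_natCast] at h2
  rw [div_lt_iff₀ hδ] at hα
  have h3 : (0 : ℚ) < lam ^ α := pow_pos (by linarith) _
  have h4 : δ * lam ^ α ≤ B := by
    have := hk.trans h2
    rwa [← div_eq_mul_inv, le_div_iff₀ h3] at this
  linarith

theorem upk (hl : 1 < lam) (hF : ∀ f ∈ F, 0 < f) (C : ℚ) :
    ∃ β : ℕ, ∀ f ∈ F, ∀ k : ℤ, f * lam ^ k ≤ C → k ≤ β := by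
  obtain ⟨B, hB, hB'⟩ := fin_bound F hF
  obtain ⟨β, hβ⟩ := pow_unbounded_of_one_lt (C * B) hl
  refine ⟨β, fun f hf k hk => ?_⟩
  by_contra hlt
  have h1 : lam ^ (β : ℤ) ≤ lam ^ k := zpow_le_zpow_right₀ hl.le (by omega)
  rw [zpow_natCast] at h1
  have hB0 : 0 < B := by linarith
  have h2 : B⁻¹ * lam ^ k ≤ f * lam ^ k :=
    mul_le_mul_of_nonneg_right (hB' f hf).2 (zpow_nonneg (by linarith) _)
  have h3 : lam ^ k ≤ C * B := by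
    have := h2.trans hk
    rwa [inv_mul_le_iff₀ hB0, mul_comm] at this
  linarith

theorem lowk' (hl : 1 < lam) (hF : ∀ f ∈ F, 0 < f) (α : ℕ) :
    ∃ K : ℚ, 1 ≤ K ∧ ∀ f ∈ F, ∀ k : ℤ, K ≤ f * lam ^ k → (α : ℤ) ≤ k := by
  obtain ⟨B, hB, hB'⟩ := fin_bound F hF
  refine ⟨B * lam ^ α, one_le_mul_of_one_le_of_one_le hB (one_le_pow₀ hl.le), ?_⟩
  intro f hf k hk
  by_contra hlt
  have h1 : lam ^ k < lam ^ (α : ℤ) := zpow_lt_zpow_right₀ hl (by omega)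
  rw [zpow_natCast] at h1
  have h2 : f * lam ^ k ≤ B * lam ^ k :=
    mul_le_mul_of_nonneg_right (hB' f hf).1 (zpow_nonneg (by linarith) _)
  have h3 : B * lam ^ k < B * lam ^ α := mul_lt_mul_of_pos_left h1 (by linarith)
  linarith

variable {e : ℤ}

theorem pw_e (f lam : ℚ) (e k : ℤ) : (f * lam ^ k) ^ e = f ^ e * (lam ^ e) ^ k := by
  rw [mul_zpow, ← zpow_mul, ← zpow_mul, mul_comm k e]

theorem img_e (hF : ∀ f ∈ F, 0 < f) : ∀ f ∈ F.image (fun f => f ^ e), 0 < f := by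
  intro f hf
  obtain ⟨g, hg, rfl⟩ := Finset.mem_image.1 hf
  exact zpow_pos (hF g hg) _

theorem lowe (hl : 1 < lam ^ e) (hF : ∀ f ∈ F, 0 < f) {δ : ℚ} (hδ : 0 < δ) :
    ∃ α : ℕ, ∀ f ∈ F, ∀ k : ℤ, δ ≤ (f * lam ^ k) ^ e → -(α : ℤ) ≤ k := by
  obtain ⟨α, hα⟩ := lowk hl (img_e (e := e) hF) hδ
  refine ⟨α, fun f hf k hk => hα _ (Finset.mem_image_of_mem _ hf) k ?_⟩
  rwa [pw_e] at hk

theorem upe (hl : 1 < lam ^ e) (hF : ∀ f ∈ F, 0 < f) (C : ℚ) :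
    ∃ β : ℕ, ∀ f ∈ F, ∀ k : ℤ, (f * lam ^ k) ^ e ≤ C → k ≤ β := by
  obtain ⟨β, hβ⟩ := upk hl (img_e (e := e) hF) C
  refine ⟨β, fun f hf k hk => hβ _ (Finset.mem_image_of_mem _ hf) k ?_⟩
  rwa [pw_e] at hk

theorem lowe' (hl : 1 < lam ^ e) (hF : ∀ f ∈ F, 0 < f) (α : ℕ) :
    ∃ K : ℚ, 1 ≤ K ∧ ∀ f ∈ F, ∀ k : ℤ, K ≤ (f * lam ^ k) ^ e → (α : ℤ) ≤ k := by
  obtain ⟨K, hK, hK'⟩ := lowk' hl (img_e (e := e) hF) α
  refine ⟨K, hK, fun f hf k hk => hK' _ (Finset.mem_image_of_mem _ hf) k ?_⟩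
  rwa [pw_e] at hk

theorem box_mul {a b : ℕ} (ha : 0 < a) (hb : 0 < b) {f : ℚ} {L L' : ℕ} {t : ℤ} (h : f * L = L' * t)
    {k : ℤ} {α β α' β' : ℕ} (h1 : (α' : ℤ) ≤ α + k) (h2 : (β' : ℤ) + k ≤ β) :
    ∃ t' : ℤ, f * ((a : ℚ) / b) ^ k * ((L * a ^ α * b ^ β : ℕ) : ℚ) =
      ((L' * a ^ α' * b ^ β' : ℕ) : ℚ) * t' := by
  have ha0 : (a : ℚ) ≠ 0 := by exact_mod_cast ha.ne'
  have hb0 : (b : ℚ) ≠ 0 := by exact_mod_cast hb.ne'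
  obtain ⟨i, hi⟩ : ∃ i : ℕ, (α : ℤ) + k = α' + i := ⟨(α + k - α').toNat, by omega⟩
  obtain ⟨j, hj⟩ : ∃ j : ℕ, (β : ℤ) - k = β' + j := ⟨(β - k - β').toNat, by omega⟩
  refine ⟨t * a ^ i * b ^ j, ?_⟩
  push_cast
  have e1 : (a : ℚ) ^ k * (a : ℚ) ^ α = a ^ α' * a ^ i := by
    rw [← zpow_natCast, ← zpow_natCast (a : ℚ) α', ← zpow_natCast (a : ℚ) i, ← zpow_add₀ ha0,
      ← zpow_add₀ ha0, add_comm, hi]
  have e2 : (b : ℚ) ^ β = b ^ k * (b ^ β' * b ^ j) := by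
    rw [← zpow_natCast, ← zpow_natCast (b : ℚ) β', ← zpow_natCast (b : ℚ) j, ← zpow_add₀ hb0,
      ← zpow_add₀ hb0, ← hj]
    congr 1
    ring
  have hbk : (b : ℚ) ^ k ≠ 0 := zpow_ne_zero _ hb0
  rw [div_zpow, e2]
  have e3 : f * ((a : ℚ) ^ k / (b : ℚ) ^ k) * (L * a ^ α * (b ^ k * (b ^ β' * b ^ j))) =
      (f * L) * (a ^ k * a ^ α) * (b ^ β' * b ^ j) := by
    field_simp
  rw [e3, e1, h]
  ring

end pow

end Pool.Agent.Lgq
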