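import Pool.Agent.Lgq.Poi
import Pool.Agent.Lgq.R1
import Pool.Agent.Lgq.Ari

/-!
# The growth of the germs
-/

namespace Pool.Agent.Lgq

open Pool.Agent.CTm Pool.Agent.Grm Pool.Agent.Lgp Filter

theorem pow_le_two {μ : ℚ} (hμ : 1 < μ) {j1 : ℕ} (h1 : 2 ≤ μ ^ j1) {d : ℤ} {j : ℕ}
    (h : μ ^ d ≤ 2 ^ j) : d ≤ j1 * j := by
  by_contra hlt
  rw [not_le] at hlt
  have h2 : μ ^ ((j1 * j : ℕ) : ℤ) < μ ^ d := zpow_lt_zpow_right₀ hμ (by push_cast; exact hlt)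
  rw [zpow_natCast, pow_mul] at h2
  have h3 : (2 : ℚ) ^ j ≤ (μ ^ j1) ^ j := pow_le_pow_left₀ (by norm_num) h1 j
  linarith

theorem win_of_cosets {F0 : Finset (ℚ × ℚ)} {F : Finset ℚ} (hF : ∀ f ∈ F, 0 < f) {lam : ℚ} {e : ℤ}
    (he : e = 1 ∨ e = -1) (hl0 : 0 < lam) (hl : 1 < lam ^ e) {j1 : ℕ} (hj1 : 2 ≤ (lam ^ e) ^ j1)
    (hsl : ∀ p ∈ F0, ∃ f ∈ F, ∃ k : ℤ, p.1 = f * lam ^ k) : Win (F.card * (2 * j1 + 1)) F0 := by
  classical
  intro x hx j
  set Z := F0.filter fun p => x ≤ p.1 ∧ p.1 ≤ 2 ^ j * x with hZ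
  have h1 : Z.image Prod.fst ⊆ F.biUnion fun f =>
      (Z.image Prod.fst).filter fun σ => ∃ k : ℤ, σ = f * lam ^ k := by
    intro σ hσ
    obtain ⟨p, hp, hpσ⟩ := Finset.mem_image.1 hσ
    obtain ⟨f, hf, k, hk⟩ := hsl p (Finset.mem_filter.1 hp).1
    exact Finset.mem_biUnion.2 ⟨f, hf, Finset.mem_filter.2 ⟨hσ, k, by rw [← hpσ]; exact hk⟩⟩
  refine (Finset.card_le_card h1).trans (Finset.card_biUnion_le.trans ?_)
  have h2 : ∀ f ∈ F, ((Z.image Prod.fst).filter fun σ => ∃ k : ℤ, σ = f * lam ^ k).card ≤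
      (2 * j1 + 1) * (j + 1) := by
    intro f hf
    set V := (Z.image Prod.fst).filter fun σ => ∃ k : ℤ, σ = f * lam ^ k with hV
    rcases V.eq_empty_or_nonempty with h0 | ⟨σ0, hσ0⟩
    · rw [h0, Finset.card_empty]
      exact Nat.zero_le _
    obtain ⟨hσ1, k0, hk0⟩ := Finset.mem_filter.1 hσ0
    have hb : ∀ σ ∈ V, x ≤ σ ∧ σ ≤ 2 ^ j * x := by
      intro σ hσ
      obtain ⟨p, hp, hpσ⟩ := Finset.mem_image.1 (Finset.mem_filter.1 hσ).1
      rw [← hpσ]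
      exact (Finset.mem_filter.1 hp).2
    have hf0 := hF f hf
    have ratio : ∀ (k k' : ℤ), f * lam ^ k ≤ 2 ^ j * x → x ≤ f * lam ^ k' → lam ^ (k - k') ≤ 2 ^ j := by
      intro k k' r1 r2
      rw [zpow_sub₀ hl0.ne', div_le_iff₀ (zpow_pos hl0 _)]
      have r3 : f * lam ^ k ≤ f * (2 ^ j * lam ^ k') := by
        have r4 : 2 ^ j * x ≤ 2 ^ j * (f * lam ^ k') := mul_le_mul_of_nonneg_left r2 (by positivity)
        calc f * lam ^ k ≤ 2 ^ j * x := r1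
          _ ≤ 2 ^ j * (f * lam ^ k') := r4
          _ = f * (2 ^ j * lam ^ k') := by ring
      exact le_of_mul_le_mul_left r3 hf0
    have h3 : V ⊆ (Finset.Icc (k0 - j1 * j) (k0 + j1 * j)).image fun k : ℤ => f * lam ^ k := by
      intro σ hσ
      obtain ⟨hσ', k, hk⟩ := Finset.mem_filter.1 hσ
      refine Finset.mem_image.2 ⟨k, ?_, hk.symm⟩
      obtain ⟨b1, b2⟩ := hb σ hσ
      obtain ⟨b3, b4⟩ := hb σ0 hσ0
      rw [hk] at b1 b2
      rw [hk0] at b3 b4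
      have r1 := ratio k k0 b2 b3
      have r2 := ratio k0 k b4 b1
      have r3 : (lam ^ e) ^ (k - k0) ≤ 2 ^ j ∧ (lam ^ e) ^ (k0 - k) ≤ 2 ^ j := by
        rcases he with rfl | rfl
        · rw [zpow_one]
          exact ⟨r1, r2⟩
        · have e1 : (-1 : ℤ) * (k - k0) = k0 - k := by ring
          have e2 : (-1 : ℤ) * (k0 - k) = k - k0 := by ring
          rw [← zpow_mul, ← zpow_mul, e1, e2]
          exact ⟨r2, r1⟩
      have r4 := pow_le_two hl hj1 r3.1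
      have r5 := pow_le_two hl hj1 r3.2
      exact Finset.mem_Icc.2 ⟨by linarith, by linarith⟩
    refine (Finset.card_le_card h3).trans (Finset.card_image_le.trans ?_)
    rw [Int.card_Icc]
    have h4 : (k0 + j1 * j + 1 - (k0 - j1 * j)).toNat = 2 * (j1 * j) + 1 := by
      have : k0 + (j1 : ℤ) * j + 1 - (k0 - j1 * j) = ((2 * (j1 * j) + 1 : ℕ) : ℤ) := by
        push_cast
        ring
      rw [this, Int.toNat_natCast]
    rw [h4]
    nlinarith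
  refine (Finset.sum_le_sum h2).trans ?_
  rw [Finset.sum_const, smul_eq_mul]
  exact le_of_eq (by ring)

variable {S : Set (Equiv.Perm ℤ)} {M : Set (Ultrafilter ℤ)} {M0 : ℕ} {A : Finset (ℚ × ℚ)}
  {F : Finset ℚ} {a b L1 L2 : ℕ} {e : ℤ}

theorem BF_int (hS : S.Finite) (hCT : Subgroup.closure S ≤ CT) {u : Ultrafilter ℤ} {n : ℕ} :
    ∀ p ∈ BF hS u n, ∀ q ∈ BF hS u n, p.1 = q.1 → ∃ t : ℤ, p.2 - q.2 = t := by
  intro p hp q hq hpq
  obtain ⟨h, hh, rfl⟩ := mem_BF.1 hp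
  obtain ⟨h', hh', rfl⟩ := mem_BF.1 hq
  have e0 := hCT (ball_mem hh')
  have e1 := hCT (ball_mem hh)
  obtain ⟨k1, k2⟩ := sl_div (u := u) e0 e1
  have hpos : 0 < sl u h' := sl_pos e0
  have hpq' : sl u h = sl u h' := hpq
  have k3 : sl (act h' u) (h * h'⁻¹) = 1 := by
    rw [hpq'] at k1
    have : (sl (act h' u) (h * h'⁻¹) - 1) * sl u h' = 0 := by linarith
    rcases mul_eq_zero.1 this with h | h
    · linarith
    · exact absurd h hpos.ne'
  obtain ⟨t, ht⟩ := tr_int (mul_mem e1 (inv_mem e0)) k3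
  rw [k3, one_mul, ht] at k2
  exact ⟨t, by change tr u h - tr u h' = t; linarith⟩

theorem BF_edge (hS : S.Finite) (hCT : Subgroup.closure S ≤ CT) {u : Ultrafilter ℤ} {n : ℕ} {C : ℚ}
    (hC : 1 ≤ C) (hC' : ∀ (u : Ultrafilter ℤ) (s : Equiv.Perm ℤ), (s ∈ S ∨ s⁻¹ ∈ S) →
      C⁻¹ ≤ sl u s ∧ sl u s ≤ C ∧ |tr u s| ≤ C) (c : ℚ) :
    ∀ p ∈ BF hS u n, ∀ s ∈ LtF hS, psi c (nxt S u p s) - psi c p ≤ (2 * C ^ 2) * eta p := by
  intro p hp s hs
  obtain ⟨h, hh, rfl⟩ := mem_BF.1 hp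
  have hsL := mem_LtF.1 hs
  have hhH := ball_mem hh
  have hsH : s ∈ Subgroup.closure S := gen_mem hsL
  rw [nxt_eq hCT hhH hsH]
  obtain ⟨b1, _, b3⟩ := hC' (act h u) s hsL
  have hC0 : 0 < C := by linarith
  have hs0 : 0 < sl (act h u) s := lt_of_lt_of_le (inv_pos.2 hC0) b1
  have hσ : 0 < sl u h := sl_pos (hCT hhH)
  have b4 : (sl (act h u) s)⁻¹ ≤ C := by
    rw [inv_le_comm₀ hs0 hC0]
    exact b1
  unfold psi phir eta gr
  rw [sl_mul (hCT hsH) (hCT hhH), tr_mul (hCT hsH) (hCT hhH)]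
  simp only
  generalize sl (act h u) s = s' at *
  generalize tr (act h u) s = t at *
  generalize sl u h = σ at *
  generalize tr u h = τ at *
  have e1 : -(s' * τ + t) / (s' * σ) - c = (-τ / σ - c) - t * s'⁻¹ * σ⁻¹ := by
    field_simp
    ring
  rw [e1, mul_inv]
  have e2 := abs_sub (-τ / σ - c) (t * s'⁻¹ * σ⁻¹)
  have hσi : 0 < σ⁻¹ := inv_pos.2 hσ
  have hsi : 0 < s'⁻¹ := inv_pos.2 hs0
  rw [abs_mul, abs_mul, abs_of_pos hσi, abs_of_pos hsi] at e2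
  have e3 : |t| * s'⁻¹ ≤ C * C := mul_le_mul b3 b4 hsi.le hC0.le
  have e4 : |t| * s'⁻¹ * σ⁻¹ ≤ C * C * σ⁻¹ := mul_le_mul_of_nonneg_right e3 hσi.le
  have e5 : s'⁻¹ * σ⁻¹ ≤ C * σ⁻¹ := mul_le_mul_of_nonneg_right b4 hσi.le
  have e6 : C * σ⁻¹ ≤ C * C * σ⁻¹ := by
    have : C ≤ C * C := by nlinarith
    exact mul_le_mul_of_nonneg_right this hσi.le
  nlinarith

theorem BF_mono (hS : S.Finite) {u : Ultrafilter ℤ} {m n : ℕ} (h : m ≤ n) : BF hS u m ⊆ BF hS u n := by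
  intro p hp
  obtain ⟨g, hg, h1⟩ := mem_BF.1 hp
  exact mem_BF.2 ⟨g, ball_mono h hg, h1⟩

theorem one_mem_ball {n : ℕ} : (1 : Equiv.Perm ℤ) ∈ ball S n := ⟨[], by simp, by simp, rfl⟩

theorem BF_succ (hS : S.Finite) (hCT : Subgroup.closure S ≤ CT) (u : Ultrafilter ℤ) (n : ℕ) :
    (BF hS u (n + 1)).card ≤ (BF hS u n).card * ((LtF hS).card + 1) := by
  classical
  have h1 : BF hS u (n + 1) ⊆ BF hS u n ∪ (BF hS u n ×ˢ LtF hS).image (fun e => nxt S u e.1 e.2) := by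
    intro p hp
    obtain ⟨g, ⟨l, hl1, hl2, rfl⟩, rfl⟩ := mem_BF.1 hp
    cases l with
    | nil => exact Finset.mem_union_left _ (mem_BF.2 ⟨1, one_mem_ball, rfl⟩)
    | cons s l =>
      rw [List.length_cons] at hl1
      have hs : s ∈ S ∨ s⁻¹ ∈ S := hl2 s (by simp)
      have hb : l.prod ∈ ball S n := ⟨l, by omega, fun x hx => hl2 x (by simp [hx]), rfl⟩
      refine Finset.mem_union_right _ (Finset.mem_image.2 ⟨(gr u l.prod, s),
        Finset.mem_product.2 ⟨mem_BF.2 ⟨_, hb, rfl⟩, mem_LtF.2 hs⟩, ?_⟩)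
      simp only
      rw [nxt_eq hCT (ball_mem hb) (gen_mem hs), List.prod_cons]
  refine (Finset.card_le_card h1).trans ((Finset.card_union_le _ _).trans ?_)
  have h2 : ((BF hS u n ×ˢ LtF hS).image (fun e => nxt S u e.1 e.2)).card ≤
      (BF hS u n).card * (LtF hS).card := by
    refine Finset.card_image_le.trans ?_
    rw [Finset.card_product]
  calc (BF hS u n).card + ((BF hS u n ×ˢ LtF hS).image (fun e => nxt S u e.1 e.2)).card
      ≤ (BF hS u n).card + (BF hS u n).card * (LtF hS).card := Nat.add_le_add_left h2 _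
    _ = (BF hS u n).card * ((LtF hS).card + 1) := by ring

theorem BF_exp (hS : S.Finite) (hCT : Subgroup.closure S ≤ CT) (u : Ultrafilter ℤ) :
    ∃ d0 : ℕ, ∀ n, (BF hS u n).card ≤ 2 ^ (d0 * n) := by
  classical
  refine ⟨(LtF hS).card + 1, fun n => ?_⟩
  induction n with
  | zero =>
    rw [Nat.mul_zero, pow_zero]
    have : BF hS u 0 ⊆ {gr u 1} := by
      intro p hp
      obtain ⟨g, ⟨l, hl1, _, rfl⟩, rfl⟩ := mem_BF.1 hp
      have : l = [] := List.length_eq_zero_iff.1 (by omega)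
      rw [this]
      simp
    exact (Finset.card_le_card this).trans (by simp)
  | succ n ih =>
    refine (BF_succ hS hCT u n).trans ?_
    have h1 : (LtF hS).card + 1 ≤ 2 ^ ((LtF hS).card + 1) := Nat.lt_two_pow_self.le
    calc (BF hS u n).card * ((LtF hS).card + 1) ≤ 2 ^ (((LtF hS).card + 1) * n) * 2 ^ ((LtF hS).card + 1) :=
          Nat.mul_le_mul ih h1
      _ = 2 ^ (((LtF hS).card + 1) * (n + 1)) := by rw [← pow_add]; ring_nf

theorem BF_growth (hS : S.Finite) (u : Ultrafilter ℤ) (n : ℕ) : (BF hS u n).card ≤ growth S n := by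
  classical
  unfold BF growth
  refine Finset.card_image_le.trans ?_
  rw [Set.ncard_eq_toFinset_card _ (ball_finite hS n)]

theorem exp_of_two {S : Set (Equiv.Perm ℤ)} (hS : S.Finite) (l1 : ℕ)
    (h : ∀ k : ℕ, 2 ^ k ≤ growth S (l1 * k)) :
    ∃ c : ℝ, 1 < c ∧ ∀ᶠ n : ℕ in atTop, c ^ n ≤ growth S n := by
  obtain ⟨l0, hl0, hl1⟩ : ∃ l0 : ℕ, 0 < l0 ∧ l1 ≤ l0 := ⟨l1 + 1, by omega, by omega⟩
  have h0 : ∀ k, 2 ^ k ≤ growth S (l0 * k) := fun k =>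
    (h k).trans (growth_mono hS (Nat.mul_le_mul_right k hl1))
  have hl0' : (0 : ℝ) < 2 * l0 := by positivity
  have hc1 : (1 : ℝ) < (2 : ℝ) ^ ((1 : ℝ) / (2 * l0)) :=
    Real.one_lt_rpow (by norm_num) (by positivity)
  have hc2 : ((2 : ℝ) ^ ((1 : ℝ) / (2 * l0))) ^ (2 * l0) = 2 := by
    rw [← Real.rpow_natCast, ← Real.rpow_mul (by norm_num)]
    have : (1 : ℝ) / (2 * l0) * ((2 * l0 : ℕ) : ℝ) = 1 := by
      push_cast
      field_simp
    rw [this, Real.rpow_one]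
  refine ⟨_, hc1, ?_⟩
  filter_upwards [eventually_ge_atTop l0] with n hn
  have h1 : 1 ≤ n / l0 := (Nat.one_le_div_iff hl0).2 hn
  have h2 : n ≤ 2 * l0 * (n / l0) := by
    have h3 := Nat.div_add_mod n l0
    have h4 := Nat.mod_lt n hl0
    nlinarith
  have h3 : l0 * (n / l0) ≤ n := Nat.mul_div_le n l0
  calc ((2 : ℝ) ^ ((1 : ℝ) / (2 * l0))) ^ n ≤
      ((2 : ℝ) ^ ((1 : ℝ) / (2 * l0))) ^ (2 * l0 * (n / l0)) :=
        pow_le_pow_right₀ hc1.le h2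
    _ = 2 ^ (n / l0) := by rw [pow_mul, hc2]
    _ ≤ growth S (l0 * (n / l0)) := by
        have := h0 (n / l0)
        exact_mod_cast this
    _ ≤ growth S n := by
        have := growth_mono hS h3
        exact_mod_cast this

/-- the inequality of the growth -/
theorem R1.ineq (R : R1 e S M M0 A F a b L1 L2) {u : Ultrafilter ℤ} (hu : u ∈ M)
    {T : Finset (Equiv.Perm ℤ)} {c0 : ℕ} (hT : ∀ t ∈ T, t ∈ ball S c0)
    (htype : ∀ h ∈ Subgroup.closure S, ∃ t ∈ T, KS (Subgroup.closure S) (act h u) =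
      KS (Subgroup.closure S) (act t u)) :
    ∃ K B0 : ℕ, 0 < K ∧ ∀ n, B0 ≤ (BF R.fin u n).card → (BF R.fin u n).card ^ 2 ≤
      K * (n * ((Nat.clog 2 (BF R.fin u (3 * n)).card + 2) * (BF R.fin u (2 * n + c0)).card)) := by
  classical
  obtain ⟨C, hC, hC'⟩ := letter_bound R.hd
  have hlam0 : (0 : ℚ) < (a : ℚ) / b := div_pos (by exact_mod_cast R.a0) (by exact_mod_cast R.b0)
  obtain ⟨j1, hj1⟩ := pow_unbounded_of_one_lt (2 : ℚ) R.lam
  set w0 : ℕ := F.card * (2 * j1 + 1) with hw0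
  set Lc : ℕ := (LtF R.fin).card with hLc
  obtain ⟨K1, hK1⟩ := exists_nat_ge (2 * C ^ 2 * (Lc * (10 * w0 + 1)) + 1)
  refine ⟨80 * T.card * K1 + 1, max 1 (2640 * w0), Nat.succ_pos _, fun n hn => ?_⟩
  have hn1 : 1 ≤ (BF R.fin u n).card := (le_max_left _ _).trans hn
  have hn2 : 2640 * w0 ≤ (BF R.fin u n).card := (le_max_right _ _).trans hn
  have hpos : ∀ p ∈ BF R.fin u (3 * n), 0 < p.1 := by
    intro p hp
    obtain ⟨h, hh, rfl⟩ := mem_BF.1 hp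
    exact sl_pos (R.hCT (ball_mem hh))
  have hwin : Win w0 (BF R.fin u (3 * n)) := by
    refine win_of_cosets R.fpos R.e1 hlam0 R.lam hj1.le fun p hp => ?_
    obtain ⟨h, hh, rfl⟩ := mem_BF.1 hp
    exact R.slope u hu h (ball_mem hh)
  obtain ⟨c, ρ, h1, h2, h3⟩ := cut (Lt := LtF R.fin) (next := nxt S u)
    (BF_mono R.fin (u := u) (show n ≤ 3 * n by omega)) hpos
    (BF_int R.fin R.hCT) hwin (show (0 : ℚ) ≤ 2 * C ^ 2 by positivity)
    (BF_edge R.fin R.hCT hC hC') (Finset.card_pos.1 hn1) hn2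
  have h4 := poincare R.fin R.hCT hT htype (fun p => psi c p < ρ) n
  set ℓ : ℕ := Nat.clog 2 (BF R.fin u (3 * n)).card with hℓ
  set X : ℕ := ((BF R.fin u (3 * n) ×ˢ LtF R.fin).filter fun e =>
    psi c e.1 < ρ ∧ ¬ psi c (nxt S u e.1 e.2) < ρ).card with hX
  have h5 : X ≤ K1 * (ℓ + 2) := by
    have e1 : (X : ℚ) ≤ (K1 : ℚ) * (ℓ + 2) := by
      refine h3.trans ?_
      have hℓ0 : (0 : ℚ) ≤ ℓ := Nat.cast_nonneg _
      have e2 : (10 : ℚ) * (w0 * (ℓ + 2)) + 1 ≤ (10 * w0 + 1) * (ℓ + 2) := by nlinarith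
      have e3 : 2 * C ^ 2 * (Lc * (10 * ((w0 : ℚ) * (ℓ + 2)) + 1)) ≤
          2 * C ^ 2 * (Lc * ((10 * w0 + 1) * (ℓ + 2))) :=
        mul_le_mul_of_nonneg_left (mul_le_mul_of_nonneg_left e2 (Nat.cast_nonneg _)) (by positivity)
      have e4 : (2 * C ^ 2 * (Lc * (10 * w0 + 1)) + 1) * (ℓ + 2) ≤ (K1 : ℚ) * (ℓ + 2) :=
        mul_le_mul_of_nonneg_right hK1 (by positivity)
      nlinarith
    exact_mod_cast e1
  set β := (BF R.fin u n).card with hβ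
  set β' := (BF R.fin u (2 * n + c0)).card with hβ'
  have h6 : β ^ 2 ≤ 40 * (T.card * (β' * ((2 * n) * X))) := by
    calc β ^ 2 = β * β := by ring
      _ ≤ (20 * ((BF R.fin u n).filter fun p => psi c p < ρ).card) *
          (2 * ((BF R.fin u n).filter fun p => ¬ psi c p < ρ).card) := Nat.mul_le_mul h1 h2
      _ = 40 * (((BF R.fin u n).filter fun p => psi c p < ρ).card *
          ((BF R.fin u n).filter fun p => ¬ psi c p < ρ).card) := by ring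
      _ ≤ _ := Nat.mul_le_mul_left _ h4
  calc β ^ 2 ≤ 40 * (T.card * (β' * ((2 * n) * X))) := h6
    _ ≤ 40 * (T.card * (β' * ((2 * n) * (K1 * (ℓ + 2))))) := by gcongr
    _ = (80 * T.card * K1) * (n * ((ℓ + 2) * β')) := by ring
    _ ≤ (80 * T.card * K1 + 1) * (n * ((ℓ + 2) * β')) := Nat.mul_le_mul_right _ (by omega)

/-- the growth is at most quadratic -/
theorem R1.quad (R : R1 e S M M0 A F a b L1 L2) (hexp : NoExp S) {u : Ultrafilter ℤ} (hu : u ∈ M)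
    {T : Finset (Equiv.Perm ℤ)} {c0 : ℕ} (hT : ∀ t ∈ T, t ∈ ball S c0)
    (htype : ∀ h ∈ Subgroup.closure S, ∃ t ∈ T, KS (Subgroup.closure S) (act h u) =
      KS (Subgroup.closure S) (act t u)) {m1 : ℕ} (hm1 : 1 ≤ m1)
    (hlow : ∀ n, 1 ≤ n → n ^ 2 ≤ (BF R.fin u (m1 * n)).card) : False := by
  obtain ⟨K, B0, hK, h1⟩ := R.ineq hu hT htype
  obtain ⟨d0, h2⟩ := BF_exp R.fin R.hCT u
  have h0 : 1 ≤ (BF R.fin u 0).card := Finset.card_pos.2 ⟨gr u 1, mem_BF.2 ⟨1, one_mem_ball, rfl⟩⟩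
  have hmono : Monotone fun n => (BF R.fin u n).card := fun m n h => Finset.card_le_card (BF_mono R.fin h)
  obtain ⟨K0, h3⟩ := arith_quad (β := fun n => (BF R.fin u n).card) hK h1 h2 h0 hmono (by
    rintro ⟨l0, hl0⟩
    exact hexp (exp_of_two R.fin l0 fun k => (hl0 k).trans (BF_growth R.fin u _)))
  exact arith_contra h1 h3 hm1 hlow

end Pool.Agent.Lgq
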