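import Pool.Agent.Lgq.Rec
import Pool.Agent.Lgp.LemX

/-!
# The kernels at recurrent points of the same class agree
-/

namespace Pool.Agent.Lgq

open Pool.Agent.CTm Pool.Agent.Grm Pool.Agent.Lgp Filter Nat Topology

variable {S : Set (Equiv.Perm ℤ)} {M : Set (Ultrafilter ℤ)} {M0 : ℕ} {A : Finset (ℚ × ℚ)}
  {F : Finset ℚ} {a b L1 L2 : ℕ} {e : ℤ}

theorem R1.lemX (R : R1 e S M M0 A F a b L1 L2) (hexp : NoExp S) : ∃ c0 : ℕ, ∀ c, c0 ≤ c →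
    ∀ L, L2 ∣ L → 0 < L → ∀ u ∈ M, ∀ v ∈ M, ∀ ρ : ℤ, Rec S a b (L * a ^ c * b ^ c) ρ u →
      Rec S a b (L * a ^ c * b ^ c) ρ v → ∀ f ∈ Subgroup.closure S, Gm u f (1, 0) →
        Gm v f (1, 0) := by
  obtain ⟨k1, h7⟩ := R.seven hexp
  refine ⟨k1, fun c hc L hL hL0 u hu v hv ρ hur hvr f hf hfu => ?_⟩
  have ha0 : 0 < a := R.a0
  set N : ℕ := L * a ^ c * b ^ c with hN
  have hNp : 0 < N := Nat.mul_pos (Nat.mul_pos hL0 (Nat.pow_pos ha0)) (Nat.pow_pos R.b0)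
  obtain ⟨β, hβ⟩ := h7 u hu f hf hfu
  obtain ⟨κ, hκ, g, hg, r, r', hmk, hru⟩ := hur β
  have hdv : L2 * a ^ k1 * b ^ β ∣ N * b ^ κ := by
    have e : N * b ^ κ = L * a ^ c * b ^ (c + κ) := by rw [hN, pow_add, mul_assoc, mul_assoc]
    rw [e]
    exact mul_dvd_mul (mul_dvd_mul hL (pow_dvd_pow a hc)) (pow_dvd_pow b (by omega))
  have hD : ∀ n ∈ cl r (N * b ^ κ), f n = n := by
    intro n hn
    have h1 := hβ r (cl_coarse hru hdv)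
    exact h1 n (cl_sub (cl_self _ _) hdv hn)
  have hcop : ∀ i j : ℕ, Nat.Coprime (a ^ i) (b ^ j) := fun i j => Nat.Coprime.pow i j R.cop
  obtain ⟨J, q, q', hq1, _, _, hq4⟩ := hmk.milnor R.fin hexp hf hg (hcop κ κ) hD
  obtain ⟨s, Q, hQ, hs1, hs2⟩ := gm_sl (u := v) (R.hCT hf)
  obtain ⟨κ', hκ', h, hh, t, t', hmk', htv⟩ := hvr Q
  obtain ⟨p, p', hp1, hp2, hp3, _⟩ := hmk'.comp hq1
    (by rw [← pow_mul]; exact hcop _ _)
  have hR : ∀ n ∈ cl p' (N * (a ^ κ' * (a ^ κ) ^ (J + 1))), f n = n := fun n hn => hq4 n (hp3 hn)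
  have hgh : g ^ (J + 1) * h ∈ Subgroup.closure S := mul_mem (pow_mem hg _) hh
  obtain ⟨J', z, z', hz1, _, hz3, hz4⟩ := hp1.inv.milnor R.fin hexp hf (inv_mem hgh) (by
    rw [← pow_mul, ← pow_mul, ← pow_add, ← pow_add]
    exact (hcop _ _).symm) hR
  obtain ⟨n, hn1, hn2⟩ := cl_inter htv hs1
  have hmeet : ∃ m : ℤ, m ∈ cl z' (N * (b ^ κ' * (b ^ κ) ^ (J + 1)) ^ (J' + 1)) ∧ m ∈ cl s Q := by
    refine crt fun d h1 h2 => ?_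
    have e : (b ^ κ' * (b ^ κ) ^ (J + 1)) ^ (J' + 1) = b ^ ((κ' + κ * (J + 1)) * (J' + 1)) := by
      rw [← pow_mul, ← pow_add, ← pow_mul]
    rw [e] at h1
    have h3 : d ∣ N * b ^ Q := dvd_mul_pow R.b0 hQ h1 h2
    have h4 : d ∣ N * b ^ κ' := h3.trans (mul_dvd_mul dvd_rfl (pow_dvd_pow b hκ'))
    have h5 : z' ∈ cl t (N * b ^ κ') := hp2 (hz3 (cl_self _ _))
    rw [mem_cl] at h5 hn1 hn2
    have h6 := (Int.natCast_dvd_natCast.2 h4).trans (dvd_sub h5 hn1)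
    rw [sub_sub_sub_cancel_right] at h6
    have h7 := (Int.natCast_dvd_natCast.2 h2).trans hn2
    have h8 := dvd_add h6 h7
    rwa [sub_add_sub_cancel] at h8
  obtain ⟨m, hm1, hm2⟩ := hmeet
  have hpos : 0 < N * (b ^ κ' * (b ^ κ) ^ (J + 1)) ^ (J' + 1) :=
    Nat.mul_pos hNp (Nat.pow_pos (Nat.mul_pos (Nat.pow_pos R.b0) (Nat.pow_pos (Nat.pow_pos R.b0))))
  obtain ⟨e1, e2⟩ := id_of_meet hQ hpos hs2 hz4 hm2 hm1
  exact ⟨s, Q, hQ, hs1, fun n hn => by rw [hs2 n hn, e1, e2]⟩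

/-- no power of a Markov map is trivial near a recurrent point -/
theorem R1.no_pow (R : R1 e S M M0 A F a b L1 L2) (hexp : NoExp S) : ∃ c0 : ℕ, ∀ c, c0 ≤ c →
    ∀ L, L2 ∣ L → 0 < L → ∀ u ∈ M, ∀ ρ : ℤ, Rec S a b (L * a ^ c * b ^ c) ρ u →
      ∀ (κ : ℕ) (g : Equiv.Perm ℤ) (r r' : ℤ), 1 ≤ κ → g ∈ Subgroup.closure S →
        Mk (L * a ^ c * b ^ c) (a ^ κ) (b ^ κ) ρ g r r' →
        ∀ j : ℕ, ¬ Gm u (g ^ (j + 1)) (1, 0) := by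
  obtain ⟨k1, h7⟩ := R.seven hexp
  refine ⟨k1, fun c hc L hL hL0 u hu ρ hur κ g r r' hκ hg hmk j hj => ?_⟩
  have ha0 : 0 < a := R.a0
  set N : ℕ := L * a ^ c * b ^ c with hN
  have hNp : 0 < N := Nat.mul_pos (Nat.mul_pos hL0 (Nat.pow_pos ha0)) (Nat.pow_pos R.b0)
  have hgj : g ^ (j + 1) ∈ Subgroup.closure S := pow_mem hg _
  obtain ⟨β, hβ⟩ := h7 u hu _ hgj hj
  obtain ⟨κ', hκ', g', hg', s, s', hmk', hsu⟩ := hur β
  have hdv : L2 * a ^ k1 * b ^ β ∣ N * b ^ κ' := by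
    have e : N * b ^ κ' = L * a ^ c * b ^ (c + κ') := by rw [hN, pow_add, mul_assoc, mul_assoc]
    rw [e]
    exact mul_dvd_mul (mul_dvd_mul hL (pow_dvd_pow a hc)) (pow_dvd_pow b (by omega))
  have hD : ∀ n ∈ cl s (N * b ^ κ'), (g ^ (j + 1)) n = n := by
    intro n hn
    have h1 := hβ s (cl_coarse hsu hdv)
    exact h1 n (cl_sub (cl_self _ _) hdv hn)
  have hcop : ∀ i j : ℕ, Nat.Coprime (a ^ i) (b ^ j) := fun i j => Nat.Coprime.pow i j R.cop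
  obtain ⟨J, q, q', hq1, _, _, hq4⟩ := hmk'.milnor R.fin hexp hgj hg' (hcop κ' κ') hD
  obtain ⟨p, p', hp1, _, _, _⟩ := hmk.pow (hcop κ κ) j
  have hlam0 : (0 : ℚ) < (a : ℚ) / b := div_pos (by exact_mod_cast R.a0) (by exact_mod_cast R.b0)
  have hb0 : (b : ℚ) ≠ 0 := by exact_mod_cast R.b0.ne'
  -- the affine map on the domain of the power
  have haff : ∀ n ∈ cl p (N * (b ^ κ) ^ (j + 1)), (((g ^ (j + 1)) n : ℤ) : ℚ) =
      ((a : ℚ) / b) ^ (κ * (j + 1)) * n + (p' - ((a : ℚ) / b) ^ (κ * (j + 1)) * p) := by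
    intro n hn
    obtain ⟨t, rfl⟩ := mem_cl_mul.1 hn
    rw [hp1.2.2 t]
    push_cast
    rw [← pow_mul, ← pow_mul, div_pow]
    field_simp
    ring
  have hmeet : ∃ m : ℤ, m ∈ cl q' (N * (a ^ κ') ^ (J + 1)) ∧ m ∈ cl p (N * (b ^ κ) ^ (j + 1)) := by
    refine crt fun d h1 h2 => ?_
    have h3 : d ∣ N := by
      have h4 := Nat.dvd_gcd h1 h2
      rw [Nat.gcd_mul_left, ← pow_mul, ← pow_mul, (hcop _ _ : Nat.gcd _ _ = 1), mul_one] at h4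
      exact h4
    have h5 := dvd_sub hq1.2.1 hp1.1
    rw [sub_sub_sub_cancel_right] at h5
    exact (Int.natCast_dvd_natCast.2 h3).trans h5
  obtain ⟨m, hm1, hm2⟩ := hmeet
  have hpos1 : 0 < N * (a ^ κ') ^ (J + 1) := Nat.mul_pos hNp (Nat.pow_pos (Nat.pow_pos ha0))
  have hpos2 : 0 < N * (b ^ κ) ^ (j + 1) := Nat.mul_pos hNp (Nat.pow_pos (Nat.pow_pos R.b0))
  obtain ⟨e1, _⟩ := id_of_meet hpos2 hpos1 haff hq4 hm2 hm1
  have e2 : 1 < (((a : ℚ) / b) ^ e) ^ (κ * (j + 1)) := one_lt_pow₀ R.lam (by positivity)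
  have e3 : (((a : ℚ) / b) ^ e) ^ (κ * (j + 1)) = (((a : ℚ) / b) ^ (κ * (j + 1))) ^ e := by
    rw [← zpow_natCast, ← zpow_mul, mul_comm e, zpow_mul, zpow_natCast]
  rw [e3, e1, one_zpow] at e2
  linarith

end Pool.Agent.Lgq
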