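import Pool.Agent.Lgq.Sep
import Pool.Agent.Lgp.Loc

/-!
# The Poincaré inequality on balls of germs
-/

namespace Pool.Agent.Lgq

open Pool.Agent.CTm Pool.Agent.Grm Pool.Agent.Lgp Filter

/-- the germ -/
noncomputable def gr (u : Ultrafilter ℤ) (h : Equiv.Perm ℤ) : ℚ × ℚ := (sl u h, tr u h)

theorem gr_gm {u : Ultrafilter ℤ} {h h' : Equiv.Perm ℤ} (hh : h ∈ CT) (hh' : h' ∈ CT)
    (he : gr u h = gr u h') : Gm u (h'⁻¹ * h) (1, 0) := by
  unfold gr at he
  obtain ⟨h1, h2⟩ := Prod.ext_iff.1 he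
  exact gm_of_eq hh hh' h1 h2

theorem gr_act {u : Ultrafilter ℤ} {h h' : Equiv.Perm ℤ} (hh : h ∈ CT) (hh' : h' ∈ CT)
    (he : gr u h = gr u h') : act h u = act h' u := by
  have h1 := act_of_gm (gr_gm hh hh' he)
  rw [act_mul] at h1
  have h2 : act h' (act h'⁻¹ (act h u)) = act h' u := by rw [h1]
  rw [← act_mul, mul_inv_cancel, act_one] at h2
  exact h2

theorem gr_congr {u : Ultrafilter ℤ} {h h' z : Equiv.Perm ℤ} (hh : h ∈ CT) (hh' : h' ∈ CT)
    (hz : z ∈ CT) (he : gr u h = gr u h') : gr u (z * h) = gr u (z * h') := by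
  have h1 := gr_act hh hh' he
  unfold gr at he ⊢
  obtain ⟨h2, h3⟩ := Prod.ext_iff.1 he
  simp only at h2 h3
  rw [sl_mul hz hh, tr_mul hz hh, sl_mul hz hh', tr_mul hz hh', h1, h2, h3]

theorem gr_cancel {u : Ultrafilter ℤ} {h h' z : Equiv.Perm ℤ} (hh : h ∈ CT) (hh' : h' ∈ CT)
    (hz : z ∈ CT) (he : gr u (z * h) = gr u (z * h')) : gr u h = gr u h' := by
  have h1 := gr_congr (mul_mem hz hh) (mul_mem hz hh') (inv_mem hz) he
  rwa [inv_mul_cancel_left, inv_mul_cancel_left] at h1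

/-- transfer between points with the same kernel -/
theorem gr_type {H : Subgroup (Equiv.Perm ℤ)} (hH : H ≤ CT) {u : Ultrafilter ℤ}
    {h t z w : Equiv.Perm ℤ} (hh : h ∈ H) (ht : t ∈ H) (hz : z ∈ H) (hw : w ∈ H)
    (hK : KS H (act h u) = KS H (act t u)) (he : gr u (z * t) = gr u (w * t)) :
    gr u (z * h) = gr u (w * h) := by
  have h1 := gr_gm (hH (mul_mem hz ht)) (hH (mul_mem hw ht)) he
  have h2 := h1.conj_id (hH ht)
  have h3 : t * ((w * t)⁻¹ * (z * t)) * t⁻¹ = w⁻¹ * z := by group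
  rw [h3] at h2
  have h4 : w⁻¹ * z ∈ KS H (act t u) := ⟨mul_mem (inv_mem hw) hz, h2⟩
  rw [← hK] at h4
  obtain ⟨h5, h6⟩ := h4
  have h7 : gr u ((w⁻¹ * z) * h) = gr u h := by
    unfold gr
    rw [sl_mul (hH h5) (hH hh), tr_mul (hH h5) (hH hh), sl_eq h6, tr_eq h6]
    simp
  have h8 := gr_congr (hH (mul_mem h5 hh)) (hH hh) (hH hw) h7
  have h9 : w * ((w⁻¹ * z) * h) = z * h := by group
  rwa [h9] at h8

variable {S : Set (Equiv.Perm ℤ)}

open Classical in
/-- the germs of the elements of the ball -/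
noncomputable def BF (hS : S.Finite) (u : Ultrafilter ℤ) (n : ℕ) : Finset (ℚ × ℚ) :=
  ((ball_finite hS n).toFinset).image (gr u)

theorem mem_BF {hS : S.Finite} {u : Ultrafilter ℤ} {n : ℕ} {p : ℚ × ℚ} :
    p ∈ BF hS u n ↔ ∃ h ∈ ball S n, gr u h = p := by
  classical
  unfold BF
  simp [Set.Finite.mem_toFinset]

open Classical in
/-- the letters -/
noncomputable def LtF (hS : S.Finite) : Finset (Equiv.Perm ℤ) :=
  hS.toFinset ∪ hS.toFinset.image (fun s => s⁻¹)

theorem mem_LtF {hS : S.Finite} {s : Equiv.Perm ℤ} : s ∈ LtF hS ↔ s ∈ S ∨ s⁻¹ ∈ S := by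
  classical
  unfold LtF
  rw [Finset.mem_union, Finset.mem_image, Set.Finite.mem_toFinset]
  constructor
  · rintro (h | ⟨t, ht, rfl⟩)
    · exact Or.inl h
    · rw [Set.Finite.mem_toFinset] at ht
      rw [inv_inv]
      exact Or.inr ht
  · rintro (h | h)
    · exact Or.inl h
    · exact Or.inr ⟨s⁻¹, by rw [Set.Finite.mem_toFinset]; exact h, inv_inv s⟩

open Classical in
/-- the next germ -/
noncomputable def nxt (S : Set (Equiv.Perm ℤ)) (u : Ultrafilter ℤ) (p : ℚ × ℚ) (s : Equiv.Perm ℤ) :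
    ℚ × ℚ :=
  if h : ∃ h ∈ Subgroup.closure S, gr u h = p then gr u (s * h.choose) else p

theorem nxt_eq (hCT : Subgroup.closure S ≤ CT) {u : Ultrafilter ℤ} {h s : Equiv.Perm ℤ}
    (hh : h ∈ Subgroup.closure S) (hs : s ∈ Subgroup.closure S) :
    nxt S u (gr u h) s = gr u (s * h) := by
  have h1 : ∃ h' ∈ Subgroup.closure S, gr u h' = gr u h := ⟨h, hh, rfl⟩
  unfold nxt
  rw [dif_pos h1]
  exact gr_congr (hCT h1.choose_spec.1) (hCT hh) (hCT hs) h1.choose_spec.2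

theorem ball_mem {n : ℕ} {h : Equiv.Perm ℤ} (hh : h ∈ ball S n) : h ∈ Subgroup.closure S := by
  obtain ⟨l, _, h2, rfl⟩ := hh
  exact list_mem h2

theorem exists_step' {P : ℕ → Prop} {m : ℕ} (h0 : P 0) (hm : ¬ P m) :
    ∃ j, j < m ∧ P j ∧ ¬ P (j + 1) := by
  by_contra h
  push Not at h
  have key : ∀ j, j ≤ m → P j := by
    intro j
    induction j with
    | zero => exact fun _ => h0
    | succ j ih => exact fun hj => h j (by omega) (ih (by omega))
  exact hm (key m le_rfl)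

/-- the Poincaré inequality -/
theorem poincare (hS : S.Finite) (hCT : Subgroup.closure S ≤ CT) {u : Ultrafilter ℤ}
    {T : Finset (Equiv.Perm ℤ)} {c0 : ℕ} (hT : ∀ t ∈ T, t ∈ ball S c0)
    (htype : ∀ h ∈ Subgroup.closure S, ∃ t ∈ T, KS (Subgroup.closure S) (act h u) =
      KS (Subgroup.closure S) (act t u)) (A : ℚ × ℚ → Prop) [DecidablePred A] (n : ℕ) :
    ((BF hS u n).filter A).card * ((BF hS u n).filter fun p => ¬ A p).card ≤
      T.card * ((BF hS u (2 * n + c0)).card * ((2 * n) *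
        ((BF hS u (3 * n) ×ˢ LtF hS).filter fun e => A e.1 ∧ ¬ A (nxt S u e.1 e.2)).card)) := by
  classical
  set H := Subgroup.closure S with hH
  have hx : ∀ x ∈ BF hS u n, ∃ h ∈ ball S n, gr u h = x := fun x hx => mem_BF.1 hx
  choose! hx hx1 hx2 using hx
  have hW : ∀ (t : Equiv.Perm ℤ) (ζ : ℚ × ℚ), ∃ l : List (Equiv.Perm ℤ),
      (∃ l' : List (Equiv.Perm ℤ), Ltr S l' ∧ l'.length ≤ 2 * n ∧ gr u (l'.prod * t) = ζ) →
        (Ltr S l ∧ l.length ≤ 2 * n ∧ gr u (l.prod * t) = ζ) := by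
    intro t ζ
    by_cases h : ∃ l' : List (Equiv.Perm ℤ), Ltr S l' ∧ l'.length ≤ 2 * n ∧ gr u (l'.prod * t) = ζ
    · obtain ⟨l', hl'⟩ := h
      exact ⟨l', fun _ => hl'⟩
    · exact ⟨[], fun h' => absurd h' h⟩
  choose W hW using hW
  have hcard : T.card * ((BF hS u (2 * n + c0)).card * ((2 * n) *
        ((BF hS u (3 * n) ×ˢ LtF hS).filter fun e => A e.1 ∧ ¬ A (nxt S u e.1 e.2)).card)) =
      (T ×ˢ (BF hS u (2 * n + c0) ×ˢ (Finset.range (2 * n) ×ˢ
        ((BF hS u (3 * n) ×ˢ LtF hS).filter fun e => A e.1 ∧ ¬ A (nxt S u e.1 e.2))))).card := by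
    rw [Finset.card_product, Finset.card_product, Finset.card_product, Finset.card_range]
  rw [← Finset.card_product, hcard]
  refine Finset.card_le_card_of_forall_subsingleton
    (fun (x : (ℚ × ℚ) × (ℚ × ℚ)) (b : Equiv.Perm ℤ × ((ℚ × ℚ) × (ℕ × ((ℚ × ℚ) × Equiv.Perm ℤ)))) =>
      Ltr S (W b.1 b.2.1) ∧
      x.2 = gr u ((W b.1 b.2.1).prod * hx x.1) ∧
      b.2.2.2.1 = gr u (((W b.1 b.2.1).drop ((W b.1 b.2.1).length - b.2.2.1)).prod * hx x.1)) ?_ ?_
  · rintro ⟨x, y⟩ hxy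
    obtain ⟨hxA, hyA⟩ := Finset.mem_product.1 hxy
    obtain ⟨hxB, hxA⟩ := Finset.mem_filter.1 hxA
    obtain ⟨hyB, hyA⟩ := Finset.mem_filter.1 hyA
    simp only at hxB hxA hyB hyA
    have hxH := ball_mem (hx1 x hxB)
    have hyH := ball_mem (hx1 y hyB)
    obtain ⟨t, ht, hK⟩ := htype _ hxH
    have htH := ball_mem (hT t ht)
    have hz : hx y * (hx x)⁻¹ ∈ ball S (2 * n) := by
      have := ball_mul (hx1 y hyB) (ball_inv (hx1 x hxB))
      rwa [← two_mul] at this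
    have hzH := ball_mem hz
    obtain ⟨lz, hlz1, hlz2, hlz3⟩ := hz
    obtain ⟨hw1, hw2, hw3⟩ := hW t (gr u ((hx y * (hx x)⁻¹) * t)) ⟨lz, hlz2, hlz1, by rw [hlz3]⟩
    set ζ := gr u ((hx y * (hx x)⁻¹) * t) with hζ
    set w := W t ζ with hw
    have hwH := hw1.mem
    have hζB : ζ ∈ BF hS u (2 * n + c0) := by
      refine mem_BF.2 ⟨_, ball_mul ?_ (hT t ht), rfl⟩
      exact ⟨lz, hlz1, hlz2, hlz3⟩
    have hy : y = gr u (w.prod * hx x) := by
      have h1 := gr_type hCT hxH htH hwH hzH hK hw3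
      rw [h1, inv_mul_cancel_right]
      exact (hx2 y hyB).symm
    obtain ⟨j, hj1, hj2, hj3⟩ := exists_step' (m := w.length)
      (P := fun j => A (gr u ((w.drop (w.length - j)).prod * hx x)))
      (by
        simp only [Nat.sub_zero, List.drop_length, List.prod_nil, one_mul]
        rw [hx2 x hxB]
        exact hxA)
      (by
        simp only [Nat.sub_self, List.drop_zero]
        rw [← hy]
        exact hyA)
    have hd : w.drop (w.length - (j + 1)) = w[w.length - (j + 1)] :: w.drop (w.length - j) := by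
      rw [List.drop_eq_getElem_cons (by omega)]
      congr 2
      omega
    set s := w[w.length - (j + 1)] with hs
    have hsw : s ∈ w := List.getElem_mem _
    have hsL := hw1 s hsw
    set v := (w.drop (w.length - j)).prod with hv
    have hvl : Ltr S (w.drop (w.length - j)) := hw1.suffix (List.drop_suffix _ _)
    have hvb : v * hx x ∈ ball S (3 * n) := by
      have h1 : v ∈ ball S (2 * n) := ⟨w.drop (w.length - j), by
        rw [List.length_drop]
        omega, hvl, rfl⟩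
      have h2 := ball_mul h1 (hx1 x hxB)
      have h3 : 2 * n + n = 3 * n := by ring
      rwa [h3] at h2
    refine ⟨(t, ζ, j, gr u (v * hx x), s), ?_, hw1, hy, rfl⟩
    refine Finset.mem_product.2 ⟨ht, Finset.mem_product.2 ⟨hζB, Finset.mem_product.2
      ⟨Finset.mem_range.2 (by simp only; omega), Finset.mem_filter.2 ⟨Finset.mem_product.2
        ⟨mem_BF.2 ⟨_, hvb, rfl⟩, mem_LtF.2 hsL⟩, hj2, ?_⟩⟩⟩⟩
    simp only
    rw [nxt_eq hCT (ball_mem hvb) (gen_mem hsL)]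
    simp only [hd, List.prod_cons] at hj3
    rwa [mul_assoc] at hj3
  · rintro ⟨t, ζ, j, p, s⟩ _ ⟨x, y⟩ hxy ⟨x', y'⟩ hxy'
    obtain ⟨hm, hl, h1, h2⟩ := hxy
    obtain ⟨hm', _, h1', h2'⟩ := hxy'
    have hxB : x ∈ BF hS u n := (Finset.mem_filter.1 (Finset.mem_product.1 hm).1).1
    have hxB' : x' ∈ BF hS u n := (Finset.mem_filter.1 (Finset.mem_product.1 hm').1).1
    simp only at hl h1 h2 h1' h2'
    have hv : ((W t ζ).drop ((W t ζ).length - j)).prod ∈ CT :=
      hCT (hl.suffix (List.drop_suffix _ _)).mem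
    have hxC := hCT (ball_mem (hx1 x hxB))
    have hxC' := hCT (ball_mem (hx1 x' hxB'))
    have h3 : gr u (hx x) = gr u (hx x') := gr_cancel hxC hxC' hv (by rw [← h2, ← h2'])
    have h4 : x = x' := by rw [← hx2 x hxB, ← hx2 x' hxB', h3]
    subst h4
    rw [h1, h1']

end Pool.Agent.Lgq
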