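import Mathlib

/-!
# Cutting a finite set of affine maps by a half disc

A pair `(σ, τ)` stands for the affine map `t ↦ σ t + τ`; it is placed at the point `-τ / σ + i / σ` of the upper half
plane.
-/

namespace Pool.Agent.Lgq

open Finset

/-- the imaginary part -/
def eta (p : ℚ × ℚ) : ℚ := p.1⁻¹

/-- the real part -/
def phir (p : ℚ × ℚ) : ℚ := -p.2 / p.1

/-- the size of the smallest box with centre `c` which contains the point -/
def psi (c : ℚ) (p : ℚ × ℚ) : ℚ := |phir p - c| + eta p

theorem eta_pos {p : ℚ × ℚ} (h : 0 < p.1) : 0 < eta p := inv_pos.2 h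

/-- the points with a given slope and a real part in an interval -/
theorem fib_card {Y : Finset (ℚ × ℚ)} {σ r c : ℚ} (hσ : 0 < σ) (hr : 0 ≤ r)
    (h1 : ∀ p ∈ Y, p.1 = σ) (h2 : ∀ p ∈ Y, ∀ q ∈ Y, ∃ t : ℤ, p.2 - q.2 = t)
    (h3 : ∀ p ∈ Y, |phir p - c| ≤ r) : (Y.card : ℚ) ≤ 4 * r * σ + 1 := by
  classical
  rcases Y.eq_empty_or_nonempty with rfl | ⟨q, hq⟩
  · simp only [Finset.card_empty, Nat.cast_zero]
    positivity
  have h4 : ∀ p ∈ Y, ∃ t : ℤ, p.2 - q.2 = t := fun p hp => h2 p hp q hq
  choose! t ht using h4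
  set m : ℕ := ⌊2 * r * σ⌋₊ with hm
  have hm1 : (m : ℚ) ≤ 2 * r * σ := Nat.floor_le (by positivity)
  have h5 : ∀ p ∈ Y, t p ∈ Finset.Icc (-(m : ℤ)) m := by
    intro p hp
    have e1 : |p.2 - q.2| ≤ 2 * r * σ := by
      have e2 : p.2 - q.2 = -(σ * ((phir p - c) - (phir q - c))) := by
        unfold phir
        rw [h1 p hp, h1 q hq]
        field_simp
        ring
      rw [e2, abs_neg, abs_mul, abs_of_pos hσ]
      have e3 := abs_sub (phir p - c) (phir q - c)
      have e4 := h3 p hp
      have e5 := h3 q hq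
      nlinarith
    rw [ht p hp] at e1
    have e3 : |t p| ≤ (m : ℤ) := by
      have e4 : (((t p).natAbs : ℕ) : ℚ) ≤ 2 * r * σ := by
        rw [Nat.cast_natAbs, Int.cast_abs]
        exact e1
      have e5 : (t p).natAbs ≤ m := Nat.le_floor e4
      rw [← Int.natCast_natAbs]
      exact_mod_cast e5
    rw [abs_le] at e3
    exact Finset.mem_Icc.2 e3
  have h6 : Y.card ≤ (Finset.Icc (-(m : ℤ)) m).card := by
    refine Finset.card_le_card_of_injOn t (fun p hp => Finset.mem_coe.2 (h5 p hp)) ?_
    intro p hp p' hp' he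
    have e1 := ht p hp
    have e2 := ht p' hp'
    rw [he] at e1
    exact Prod.ext (by rw [h1 p hp, h1 p' hp']) (by linarith)
  rw [Int.card_Icc] at h6
  have h7 : Y.card ≤ 2 * m + 1 := by omega
  have h8 : (Y.card : ℚ) ≤ 2 * m + 1 := by exact_mod_cast h7
  linarith

/-- the number of values of the slopes in a window -/
def Win (w0 : ℕ) (F0 : Finset (ℚ × ℚ)) : Prop :=
  ∀ x : ℚ, 0 < x → ∀ j : ℕ, ((F0.filter fun p => x ≤ p.1 ∧ p.1 ≤ 2 ^ j * x).image Prod.fst).card ≤
    w0 * (j + 1)

theorem weight {F0 : Finset (ℚ × ℚ)} {w0 : ℕ} (hpos : ∀ p ∈ F0, 0 < p.1)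
    (hint : ∀ p ∈ F0, ∀ q ∈ F0, p.1 = q.1 → ∃ t : ℤ, p.2 - q.2 = t) (hw : Win w0 F0) {c ω : ℚ}
    (hω : 0 < ω) :
    ∑ p ∈ F0.filter (fun p => psi c p < 2 * ω), eta p ≤
      ω * (10 * (w0 * (Nat.clog 2 F0.card + 2)) + 1) := by
  classical
  set N : ℕ := F0.card with hN
  set Y := F0.filter (fun p => psi c p < 2 * ω) with hY
  have hYF : ∀ p ∈ Y, p ∈ F0 := fun p hp => (Finset.mem_filter.1 hp).1
  have hYpsi : ∀ p ∈ Y, |phir p - c| < 2 * ω ∧ eta p < 2 * ω := by
    intro p hp
    have h1 := (Finset.mem_filter.1 hp).2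
    have h2 := eta_pos (hpos p (hYF p hp))
    have h3 := abs_nonneg (phir p - c)
    unfold psi at h1
    constructor <;> linarith
  rcases Nat.eq_zero_or_pos N with hN0 | hN0
  · have h0 : F0 = ∅ := Finset.card_eq_zero.1 hN0
    have h1 : Y = ∅ := by rw [hY, h0]; rfl
    rw [h1, Finset.sum_empty]
    positivity
  have hNq : (0 : ℚ) < N := by exact_mod_cast hN0
  rw [← Finset.sum_filter_add_sum_filter_not Y (fun p => eta p < ω / N)]
  have h1 : ∑ p ∈ Y.filter (fun p => eta p < ω / N), eta p ≤ ω := by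
    calc ∑ p ∈ Y.filter (fun p => eta p < ω / N), eta p
        ≤ ∑ _p ∈ Y.filter (fun p => eta p < ω / N), ω / N :=
          Finset.sum_le_sum fun p hp => (Finset.mem_filter.1 hp).2.le
      _ = (Y.filter (fun p => eta p < ω / N)).card * (ω / N) := by
          rw [Finset.sum_const, nsmul_eq_mul]
      _ ≤ N * (ω / N) := by
          refine mul_le_mul_of_nonneg_right ?_ (by positivity)
          have : (Y.filter (fun p => eta p < ω / N)).card ≤ N :=
            (Finset.card_le_card (Finset.filter_subset _ _)).trans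
              (Finset.card_le_card (Finset.filter_subset _ _))
          exact_mod_cast this
      _ = ω := by field_simp
  set Z := Y.filter (fun p => ¬ eta p < ω / N) with hZ
  have hZY : ∀ p ∈ Z, p ∈ Y := fun p hp => (Finset.mem_filter.1 hp).1
  have h2 : (Z.image Prod.fst).card ≤ w0 * (Nat.clog 2 N + 2) := by
    have h3 := hw (1 / (2 * ω)) (by positivity) (Nat.clog 2 N + 1)
    refine le_trans (Finset.card_le_card (Finset.image_subset_image ?_)) h3
    intro p hp
    have hpY := hZY p hp
    have hp0 := hpos p (hYF p hpY)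
    refine Finset.mem_filter.2 ⟨hYF p hpY, ?_, ?_⟩
    · have h4 := (hYpsi p hpY).2
      unfold eta at h4
      rw [div_le_iff₀ (by positivity)]
      rw [inv_lt_iff_one_lt_mul₀ hp0] at h4
      linarith
    · have h4 := (Finset.mem_filter.1 hp).2
      rw [not_lt] at h4
      unfold eta at h4
      have h5 : p.1 ≤ N / ω := by
        rw [div_le_iff₀ hNq] at h4
        rw [le_div_iff₀ hω]
        have h6 : p.1⁻¹ * N * p.1 = N := by field_simp
        nlinarith
      have h6 : (N : ℚ) ≤ 2 ^ (Nat.clog 2 N) := by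
        exact_mod_cast Nat.le_pow_clog (by norm_num) N
      refine h5.trans ?_
      rw [_root_.pow_succ]
      have h7 : (2 : ℚ) ^ Nat.clog 2 N * 2 * (1 / (2 * ω)) = 2 ^ Nat.clog 2 N / ω := by
        field_simp
      rw [h7]
      exact div_le_div_of_nonneg_right h6 hω.le
  have h3 : ∑ p ∈ Z, eta p ≤ (Z.image Prod.fst).card * (10 * ω) := by
    rw [← Finset.sum_fiberwise_of_maps_to (s := Z) (t := Z.image Prod.fst) (g := Prod.fst)
      (fun p hp => Finset.mem_image_of_mem _ hp)]
    calc ∑ σ ∈ Z.image Prod.fst, ∑ p ∈ Z.filter (fun p => p.1 = σ), eta p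
        ≤ ∑ _σ ∈ Z.image Prod.fst, 10 * ω := by
          refine Finset.sum_le_sum fun σ hσ => ?_
          obtain ⟨p0, hp0, hp0'⟩ := Finset.mem_image.1 hσ
          have hσ0 : 0 < σ := by rw [← hp0']; exact hpos p0 (hYF p0 (hZY p0 hp0))
          have e1 : ((Z.filter (fun p => p.1 = σ)).card : ℚ) ≤ 4 * (2 * ω) * σ + 1 := by
            refine fib_card hσ0 (by positivity) (fun p hp => (Finset.mem_filter.1 hp).2) ?_ ?_ (c := c)
            · intro p hp q hq
              have hp' := Finset.mem_filter.1 hp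
              have hq' := Finset.mem_filter.1 hq
              exact hint p (hYF p (hZY p hp'.1)) q (hYF q (hZY q hq'.1)) (by rw [hp'.2, hq'.2])
            · intro p hp
              exact (hYpsi p (hZY p (Finset.mem_filter.1 hp).1)).1.le
          have e2 : ∑ p ∈ Z.filter (fun p => p.1 = σ), eta p =
              (Z.filter (fun p => p.1 = σ)).card * σ⁻¹ := by
            rw [← nsmul_eq_mul, ← Finset.sum_const]
            refine Finset.sum_congr rfl fun p hp => ?_
            unfold eta
            rw [(Finset.mem_filter.1 hp).2]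
          have e3 : σ⁻¹ < 2 * ω := by
            have := (hYpsi p0 (hZY p0 hp0)).2
            unfold eta at this
            rwa [hp0'] at this
          rw [e2]
          have e4 : 0 < σ⁻¹ := inv_pos.2 hσ0
          calc ((Z.filter (fun p => p.1 = σ)).card : ℚ) * σ⁻¹ ≤ (4 * (2 * ω) * σ + 1) * σ⁻¹ :=
                mul_le_mul_of_nonneg_right e1 e4.le
            _ = 8 * ω + σ⁻¹ := by field_simp; ring
            _ ≤ 10 * ω := by linarith
      _ = (Z.image Prod.fst).card * (10 * ω) := by rw [Finset.sum_const, nsmul_eq_mul]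
  have h4 : ((Z.image Prod.fst).card : ℚ) ≤ w0 * (Nat.clog 2 N + 2) := by exact_mod_cast h2
  have h5 : ((Z.image Prod.fst).card : ℚ) * (10 * ω) ≤ (w0 * (Nat.clog 2 N + 2)) * (10 * ω) :=
    mul_le_mul_of_nonneg_right h4 (by positivity)
  nlinarith

/-- the number of integers in an interval -/
theorem card_int {M : ℕ} {x y : ℚ} (hxy : x ≤ y) :
    (((Finset.range M).filter fun i : ℕ => x < i ∧ (i : ℚ) ≤ y).card : ℚ) ≤ y - x + 1 := by
  have h1 : ((Finset.range M).filter fun i : ℕ => x < i ∧ (i : ℚ) ≤ y).card ≤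
      (Finset.Ioc ⌊x⌋ ⌊y⌋).card := by
    refine Finset.card_le_card_of_injOn (fun i : ℕ => (i : ℤ)) ?_ ?_
    · intro i hi
      obtain ⟨_, h2, h3⟩ := Finset.mem_filter.1 (Finset.mem_coe.1 hi)
      refine Finset.mem_coe.2 (Finset.mem_Ioc.2 ⟨?_, ?_⟩)
      · rw [Int.floor_lt]
        exact_mod_cast h2
      · rw [Int.le_floor]
        exact_mod_cast h3
    · intro i _ j _ hij
      have hij' : (i : ℤ) = j := hij
      exact_mod_cast hij'
  have h2 : ⌊x⌋ ≤ ⌊y⌋ := Int.floor_le_floor hxy
  rw [Int.card_Ioc] at h1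
  have h3 : (((⌊y⌋ - ⌊x⌋).toNat : ℕ) : ℤ) = ⌊y⌋ - ⌊x⌋ := Int.toNat_of_nonneg (by linarith)
  have h4 : ((((⌊y⌋ - ⌊x⌋).toNat : ℕ) : ℤ) : ℚ) = ((⌊y⌋ - ⌊x⌋ : ℤ) : ℚ) := by rw [h3]
  have h5 : (((Finset.range M).filter fun i : ℕ => x < i ∧ (i : ℚ) ≤ y).card : ℚ) ≤
      ((⌊y⌋ - ⌊x⌋).toNat : ℕ) := by exact_mod_cast h1
  have h6 := Int.floor_le y
  have h7 := Int.lt_floor_add_one x
  push_cast at h4
  rw [h4] at h5
  linarith

/-- the threshold -/
theorem threshold {α : Type*} {F0 : Finset (ℚ × ℚ)} {Lt : Finset α}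
    {next : ℚ × ℚ → α → ℚ × ℚ} {w0 : ℕ} (hpos : ∀ p ∈ F0, 0 < p.1)
    (hint : ∀ p ∈ F0, ∀ q ∈ F0, p.1 = q.1 → ∃ t : ℤ, p.2 - q.2 = t) (hw : Win w0 F0) {c ω C : ℚ}
    (hω : 0 < ω) (hC : 0 ≤ C)
    (hedge : ∀ p ∈ F0, ∀ s ∈ Lt, psi c (next p s) - psi c p ≤ C * eta p) :
    ∃ ρ : ℚ, ω ≤ ρ ∧ ρ ≤ 2 * ω ∧
      (((F0 ×ˢ Lt).filter fun e => psi c e.1 < ρ ∧ ¬ psi c (next e.1 e.2) < ρ).card : ℚ) ≤
        C * (Lt.card * (10 * (w0 * (Nat.clog 2 F0.card + 2)) + 1)) + 1 := by
  classical
  set Ed := F0 ×ˢ Lt with hEd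
  set M : ℕ := Ed.card + 1 with hM
  have hMq : (0 : ℚ) < M := by exact_mod_cast Nat.succ_pos _
  set rho : ℕ → ℚ := fun i => ω + ω * i / M with hrho
  set K : ℚ := C * (Lt.card * (10 * (w0 * (Nat.clog 2 F0.card + 2)) + 1)) + 1 with hK
  have hsum : ∑ i ∈ Finset.range M,
      ((Ed.filter fun e => psi c e.1 < rho i ∧ ¬ psi c (next e.1 e.2) < rho i).card : ℚ) ≤
      ∑ _i ∈ Finset.range M, K := by
    have e1 : ∀ i, ((Ed.filter fun e => psi c e.1 < rho i ∧ ¬ psi c (next e.1 e.2) < rho i).card : ℚ) =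
        ∑ e ∈ Ed, if psi c e.1 < rho i ∧ ¬ psi c (next e.1 e.2) < rho i then (1 : ℚ) else 0 := by
      intro i
      rw [Finset.card_filter]
      push_cast
      rfl
    simp_rw [e1]
    rw [Finset.sum_comm]
    have e2 : ∀ e ∈ Ed, (∑ i ∈ Finset.range M,
        if psi c e.1 < rho i ∧ ¬ psi c (next e.1 e.2) < rho i then (1 : ℚ) else 0) ≤
        (if psi c e.1 < 2 * ω then M * (C * eta e.1) / ω else 0) + 1 := by
      intro e he
      obtain ⟨he1, he2⟩ := Finset.mem_product.1 he
      have e3 : (∑ i ∈ Finset.range M,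
          if psi c e.1 < rho i ∧ ¬ psi c (next e.1 e.2) < rho i then (1 : ℚ) else 0) =
          (((Finset.range M).filter fun i => psi c e.1 < rho i ∧ ¬ psi c (next e.1 e.2) < rho i).card : ℚ) := by
        rw [Finset.card_filter]
        push_cast
        rfl
      rw [e3]
      have hη := eta_pos (hpos e.1 he1)
      by_cases hlt : psi c e.1 < 2 * ω
      · rw [if_pos hlt]
        have e4 := hedge e.1 he1 e.2 he2
        by_cases hle : psi c (next e.1 e.2) ≤ psi c e.1
        · have e5 : ((Finset.range M).filter fun i => psi c e.1 < rho i ∧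
              ¬ psi c (next e.1 e.2) < rho i) = ∅ := by
            refine Finset.filter_eq_empty_iff.2 fun i _ hi => ?_
            have := hi.1
            have h2 := not_lt.1 hi.2
            linarith
          rw [e5, Finset.card_empty]
          have : 0 ≤ M * (C * eta e.1) / ω := by positivity
          push_cast
          linarith
        · rw [not_le] at hle
          have e5 : ((Finset.range M).filter fun i => psi c e.1 < rho i ∧
              ¬ psi c (next e.1 e.2) < rho i) ⊆ (Finset.range M).filter fun i : ℕ =>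
                (psi c e.1 / ω - 1) * M < i ∧ (i : ℚ) ≤ (psi c (next e.1 e.2) / ω - 1) * M := by
            intro i hi
            obtain ⟨h1, h2, h3⟩ := Finset.mem_filter.1 hi
            rw [not_lt] at h3
            refine Finset.mem_filter.2 ⟨h1, ?_, ?_⟩
            · simp only [hrho] at h2
              have h4 : psi c e.1 / ω < 1 + i / M := by
                rw [div_lt_iff₀ hω]
                have : (1 + (i : ℚ) / M) * ω = ω + ω * i / M := by ring
                rw [this]
                exact h2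
              have h5 : psi c e.1 / ω - 1 < i / M := by linarith
              rwa [lt_div_iff₀ hMq] at h5
            · simp only [hrho] at h3
              have h4 : 1 + i / M ≤ psi c (next e.1 e.2) / ω := by
                rw [le_div_iff₀ hω]
                have : (1 + (i : ℚ) / M) * ω = ω + ω * i / M := by ring
                rw [this]
                exact h3
              have h5 : (i : ℚ) / M ≤ psi c (next e.1 e.2) / ω - 1 := by linarith
              rwa [div_le_iff₀ hMq] at h5
          have e6 : (((Finset.range M).filter fun i => psi c e.1 < rho i ∧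
              ¬ psi c (next e.1 e.2) < rho i).card : ℚ) ≤ _ :=
            le_trans (by exact_mod_cast Finset.card_le_card e5)
              (card_int (by
                refine mul_le_mul_of_nonneg_right ?_ hMq.le
                have := div_le_div_of_nonneg_right hle.le hω.le
                linarith))
          refine e6.trans ?_
          have e7 : (psi c (next e.1 e.2) / ω - 1) * M - (psi c e.1 / ω - 1) * M =
              M * (psi c (next e.1 e.2) - psi c e.1) / ω := by ring
          rw [e7]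
          have e8 : M * (psi c (next e.1 e.2) - psi c e.1) / ω ≤ M * (C * eta e.1) / ω :=
            div_le_div_of_nonneg_right (mul_le_mul_of_nonneg_left e4 hMq.le) hω.le
          linarith
      · rw [if_neg hlt]
        rw [not_lt] at hlt
        have e5 : ((Finset.range M).filter fun i => psi c e.1 < rho i ∧
            ¬ psi c (next e.1 e.2) < rho i) = ∅ := by
          refine Finset.filter_eq_empty_iff.2 fun i hi h => ?_
          have h1 := h.1
          have h2 : (i : ℚ) < M := by exact_mod_cast Finset.mem_range.1 hi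
          simp only [hrho] at h1
          have h3 : ω * i / M ≤ ω := by
            rw [div_le_iff₀ hMq]
            exact mul_le_mul_of_nonneg_left h2.le hω.le
          linarith
        rw [e5, Finset.card_empty]
        norm_num
    refine (Finset.sum_le_sum e2).trans ?_
    rw [Finset.sum_add_distrib]
    have e3 : ∑ e ∈ Ed, (if psi c e.1 < 2 * ω then (M : ℚ) * (C * eta e.1) / ω else 0) =
        Lt.card * ∑ p ∈ F0.filter (fun p => psi c p < 2 * ω), (M : ℚ) * (C * eta p) / ω := by
      rw [hEd, Finset.sum_product, Finset.sum_filter, Finset.mul_sum]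
      refine Finset.sum_congr rfl fun p _ => ?_
      change (∑ _y ∈ Lt, if psi c p < 2 * ω then (M : ℚ) * (C * eta p) / ω else 0) = _
      rw [Finset.sum_const, nsmul_eq_mul]
    have e4 : ∑ p ∈ F0.filter (fun p => psi c p < 2 * ω), (M : ℚ) * (C * eta p) / ω =
        M * C / ω * ∑ p ∈ F0.filter (fun p => psi c p < 2 * ω), eta p := by
      rw [Finset.mul_sum]
      refine Finset.sum_congr rfl fun p _ => ?_
      ring
    have e5 := weight hpos hint hw (c := c) hω
    have e6 : M * C / ω * ∑ p ∈ F0.filter (fun p => psi c p < 2 * ω), eta p ≤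
        M * C / ω * (ω * (10 * (w0 * (Nat.clog 2 F0.card + 2)) + 1)) :=
      mul_le_mul_of_nonneg_left e5 (by positivity)
    have e7 : M * C / ω * (ω * (10 * ((w0 : ℚ) * (Nat.clog 2 F0.card + 2)) + 1)) =
        M * (C * (10 * (w0 * (Nat.clog 2 F0.card + 2)) + 1)) := by field_simp
    rw [e3, e4, Finset.sum_const, Finset.sum_const, nsmul_eq_mul, nsmul_eq_mul, Finset.card_range, hK]
    rw [e7] at e6
    have e8 : (Lt.card : ℚ) * (M * C / ω * ∑ p ∈ F0.filter (fun p => psi c p < 2 * ω), eta p) ≤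
        Lt.card * (M * (C * (10 * (w0 * (Nat.clog 2 F0.card + 2)) + 1))) :=
      mul_le_mul_of_nonneg_left e6 (by positivity)
    have e9 : (Ed.card : ℚ) ≤ M := by
      rw [hM]
      push_cast
      linarith
    have e10 : (M : ℚ) * (C * (Lt.card * (10 * (w0 * (Nat.clog 2 F0.card + 2)) + 1)) + 1) =
        Lt.card * (M * (C * (10 * (w0 * (Nat.clog 2 F0.card + 2)) + 1))) + M := by ring
    rw [e10]
    linarith
  obtain ⟨i, hi, hi'⟩ := Finset.exists_le_of_sum_le ⟨0, Finset.mem_range.2 (Nat.succ_pos _)⟩ hsum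
  have h2 : (i : ℚ) < M := by exact_mod_cast Finset.mem_range.1 hi
  refine ⟨rho i, ?_, ?_, hi'⟩
  · simp only [hrho]
    have : 0 ≤ ω * i / M := by positivity
    linarith
  · simp only [hrho]
    have h3 : ω * i / M ≤ ω := by
      rw [div_le_iff₀ hMq]
      exact mul_le_mul_of_nonneg_left h2.le hω.le
    linarith

/-- the cut -/
theorem cut {α : Type*} {B F0 : Finset (ℚ × ℚ)} {Lt : Finset α} {next : ℚ × ℚ → α → ℚ × ℚ} {w0 : ℕ}
    (hB : B ⊆ F0) (hpos : ∀ p ∈ F0, 0 < p.1)
    (hint : ∀ p ∈ F0, ∀ q ∈ F0, p.1 = q.1 → ∃ t : ℤ, p.2 - q.2 = t) (hw : Win w0 F0) {C : ℚ}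
    (hC : 0 ≤ C)
    (hedge : ∀ c : ℚ, ∀ p ∈ F0, ∀ s ∈ Lt, psi c (next p s) - psi c p ≤ C * eta p)
    (hne : B.Nonempty) (hcard : 2640 * w0 ≤ B.card) :
    ∃ c ρ : ℚ, B.card ≤ 20 * (B.filter fun p => psi c p < ρ).card ∧
      B.card ≤ 2 * (B.filter fun p => ¬ psi c p < ρ).card ∧
      (((F0 ×ˢ Lt).filter fun e => psi c e.1 < ρ ∧ ¬ psi c (next e.1 e.2) < ρ).card : ℚ) ≤
        C * (Lt.card * (10 * (w0 * (Nat.clog 2 F0.card + 2)) + 1)) + 1 := by
  classical
  set P : ℤ → Prop := fun k => ∃ c : ℚ, B.card ≤ 20 * (B.filter fun p => psi c p < (2 : ℚ) ^ k).card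
    with hP
  have hposB : ∀ p ∈ B, 0 < p.1 := fun p hp => hpos p (hB hp)
  have hex : ∃ k, P k := by
    obtain ⟨n, hn⟩ := pow_unbounded_of_one_lt (∑ p ∈ B, psi 0 p) (one_lt_two : (1 : ℚ) < 2)
    refine ⟨n, 0, ?_⟩
    have h1 : (B.filter fun p => psi 0 p < (2 : ℚ) ^ (n : ℤ)) = B := by
      refine Finset.filter_true_of_mem fun p hp => ?_
      rw [zpow_natCast]
      refine lt_of_le_of_lt ?_ hn
      refine Finset.single_le_sum (f := fun p => psi 0 p) (fun q hq => ?_) hp
      have h1 := eta_pos (hposB q hq)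
      have h2 := abs_nonneg (phir q - 0)
      unfold psi
      linarith
    rw [h1]
    omega
  have hbd : ∃ b : ℤ, ∀ k, P k → b ≤ k := by
    obtain ⟨q, hq, hq'⟩ := Finset.exists_min_image B eta hne
    have hη := eta_pos (hposB q hq)
    obtain ⟨n, hn⟩ := exists_pow_lt_of_lt_one hη (by norm_num : (1 / 2 : ℚ) < 1)
    refine ⟨-(n : ℤ), fun k hk => ?_⟩
    obtain ⟨c, hc⟩ := hk
    have h1 : 0 < B.card := Finset.card_pos.2 hne
    have h2 : 0 < (B.filter fun p => psi c p < (2 : ℚ) ^ k).card := by omega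
    obtain ⟨p, hp⟩ := Finset.card_pos.1 h2
    obtain ⟨hp1, hp2⟩ := Finset.mem_filter.1 hp
    have h3 := hq' p hp1
    have h4 := abs_nonneg (phir p - c)
    unfold psi at hp2
    by_contra hlt
    have h5 : (2 : ℚ) ^ k ≤ 2 ^ (-(n : ℤ)) := zpow_le_zpow_right₀ (by norm_num) (by omega)
    rw [zpow_neg, zpow_natCast] at h5
    have h6 : (1 / 2 : ℚ) ^ n = ((2 : ℚ) ^ n)⁻¹ := by rw [one_div, inv_pow]
    rw [h6] at hn
    linarith
  obtain ⟨k, ⟨c, hc⟩, hk⟩ := Int.exists_least_of_bdd hbd hex
  set ω : ℚ := (2 : ℚ) ^ k with hω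
  have hω0 : 0 < ω := zpow_pos (by norm_num) _
  have hhalf : (2 : ℚ) ^ (k - 1) = ω / 2 := by
    rw [zpow_sub₀ (by norm_num), zpow_one]
  have hnot : ∀ c' : ℚ, 20 * (B.filter fun p => psi c' p < ω / 2).card < B.card := by
    intro c'
    by_contra h
    rw [not_lt] at h
    have h1 : P (k - 1) := ⟨c', by rw [hhalf]; exact h⟩
    have := hk _ h1
    omega
  obtain ⟨ρ, hρ1, hρ2, hρ3⟩ := threshold hpos hint hw hω0 hC (hedge c)
  refine ⟨c, ρ, ?_, ?_, hρ3⟩
  · refine hc.trans (Nat.mul_le_mul_left _ (Finset.card_le_card ?_))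
    intro p hp
    obtain ⟨h1, h2⟩ := Finset.mem_filter.1 hp
    exact Finset.mem_filter.2 ⟨h1, lt_of_lt_of_le h2 hρ1⟩
  · -- the points in the box of size `2 ω`
    set D := B.filter fun p => psi c p < 2 * ω with hD
    have hDpsi : ∀ p ∈ D, |phir p - c| < 2 * ω ∧ eta p < 2 * ω := by
      intro p hp
      obtain ⟨hp0, h1⟩ := Finset.mem_filter.1 hp
      have h2 := eta_pos (hposB p hp0)
      have h3 := abs_nonneg (phir p - c)
      unfold psi at h1
      constructor <;> linarith
    have hDB : ∀ p ∈ D, p ∈ B := fun p hp => (Finset.mem_filter.1 hp).1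
    have h1 : 20 * (D.filter fun p => eta p < ω / 4).card ≤ 9 * B.card := by
      have h2 : (D.filter fun p => eta p < ω / 4) ⊆ (Finset.Icc (-4 : ℤ) 4).biUnion fun j =>
          B.filter fun p => psi (c + j * (ω / 2)) p < ω / 2 := by
        intro p hp
        obtain ⟨hp1, hp2⟩ := Finset.mem_filter.1 hp
        obtain ⟨h3, _⟩ := hDpsi p hp1
        set x : ℚ := (phir p - c) / (ω / 2) with hx
        have hx1 : phir p - c = x * (ω / 2) := by rw [hx]; field_simp
        have hx2 : |x| < 4 := by
          rw [hx, abs_div, abs_of_pos (show (0 : ℚ) < ω / 2 by positivity),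
            div_lt_iff₀ (by positivity)]
          linarith
        have hx3 := abs_sub_round x
        rw [abs_lt] at hx2
        rw [abs_le] at hx3
        refine Finset.mem_biUnion.2 ⟨round x, Finset.mem_Icc.2 ⟨?_, ?_⟩,
          Finset.mem_filter.2 ⟨hDB p hp1, ?_⟩⟩
        · have h4 : (-5 : ℚ) < round x := by linarith [hx2.1, hx3.2]
          have h5 : (-5 : ℤ) < round x := by exact_mod_cast h4
          omega
        · have h4 : (round x : ℚ) < 5 := by linarith [hx2.2, hx3.1]
          have h5 : round x < (5 : ℤ) := by exact_mod_cast h4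
          omega
        · unfold psi
          have h4 : phir p - (c + (round x : ℚ) * (ω / 2)) = (x - round x) * (ω / 2) := by
            linear_combination hx1
          rw [h4, abs_mul, abs_of_pos (show (0 : ℚ) < ω / 2 by positivity)]
          have h5 : |x - round x| ≤ 1 / 2 := abs_sub_round x
          have h6 : |x - round x| * (ω / 2) ≤ 1 / 2 * (ω / 2) :=
            mul_le_mul_of_nonneg_right h5 (by positivity)
          linarith
      have h3 := (Finset.card_le_card h2).trans Finset.card_biUnion_le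
      have h4 : ∑ j ∈ Finset.Icc (-4 : ℤ) 4,
          20 * (B.filter fun p => psi (c + j * (ω / 2)) p < ω / 2).card ≤
          ∑ _j ∈ Finset.Icc (-4 : ℤ) 4, B.card :=
        Finset.sum_le_sum fun j _ => (hnot _).le
      rw [← Finset.mul_sum, Finset.sum_const, Int.card_Icc, smul_eq_mul] at h4
      have h5 : (4 + 1 - (-4 : ℤ)).toNat = 9 := by rfl
      rw [h5] at h4
      omega
    have h2 : (D.filter fun p => ¬ eta p < ω / 4).card ≤ 33 * (w0 * 4) := by
      set Y := D.filter fun p => ¬ eta p < ω / 4 with hY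
      have hYD : ∀ p ∈ Y, p ∈ D := fun p hp => (Finset.mem_filter.1 hp).1
      have h3 : Y.card ≤ 33 * (Y.image Prod.fst).card := by
        refine Finset.card_le_mul_card_image Y _ fun σ hσ => ?_
        obtain ⟨p0, hp0, hp0'⟩ := Finset.mem_image.1 hσ
        have hσ0 : 0 < σ := by rw [← hp0']; exact hposB p0 (hDB p0 (hYD p0 hp0))
        have e1 : ((Y.filter (fun p => p.1 = σ)).card : ℚ) ≤ 4 * (2 * ω) * σ + 1 := by
          refine fib_card hσ0 (by positivity) (fun p hp => (Finset.mem_filter.1 hp).2) ?_ ?_ (c := c)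
          · intro p hp q hq
            have hp' := Finset.mem_filter.1 hp
            have hq' := Finset.mem_filter.1 hq
            exact hint p (hB (hDB p (hYD p hp'.1))) q (hB (hDB q (hYD q hq'.1)))
              (by rw [hp'.2, hq'.2])
          · intro p hp
            exact (hDpsi p (hYD p (Finset.mem_filter.1 hp).1)).1.le
        have e2 : σ ≤ 4 / ω := by
          have := (Finset.mem_filter.1 hp0).2
          rw [not_lt] at this
          unfold eta at this
          rw [hp0'] at this
          rw [le_div_iff₀ hω0]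
          have e3 : σ⁻¹ * σ = 1 := inv_mul_cancel₀ hσ0.ne'
          nlinarith
        have e3 : 4 * (2 * ω) * σ + 1 ≤ 33 := by
          have : 4 * (2 * ω) * σ ≤ 4 * (2 * ω) * (4 / ω) :=
            mul_le_mul_of_nonneg_left e2 (by positivity)
          have e4 : 4 * (2 * ω) * (4 / ω) = 32 := by field_simp; norm_num
          linarith
        have e4 := e1.trans e3
        exact_mod_cast e4
      have h4 : (Y.image Prod.fst).card ≤ w0 * 4 := by
        have h5 := hw (1 / (2 * ω)) (by positivity) 3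
        refine le_trans (Finset.card_le_card (Finset.image_subset_image ?_)) h5
        intro p hp
        have hpD := hYD p hp
        have hp0 := hposB p (hDB p hpD)
        refine Finset.mem_filter.2 ⟨hB (hDB p hpD), ?_, ?_⟩
        · have h6 := (hDpsi p hpD).2
          unfold eta at h6
          rw [div_le_iff₀ (by positivity)]
          rw [inv_lt_iff_one_lt_mul₀ hp0] at h6
          linarith
        · have h6 := (Finset.mem_filter.1 hp).2
          rw [not_lt] at h6
          unfold eta at h6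
          have h7 : (2 : ℚ) ^ 3 * (1 / (2 * ω)) = 4 / ω := by field_simp; norm_num
          rw [h7, le_div_iff₀ hω0]
          have h8 : p.1⁻¹ * p.1 = 1 := inv_mul_cancel₀ hp0.ne'
          nlinarith
      exact h3.trans (Nat.mul_le_mul_left _ h4)
    have h3 : D.card = (D.filter fun p => eta p < ω / 4).card +
        (D.filter fun p => ¬ eta p < ω / 4).card :=
      (Finset.card_filter_add_card_filter_not (s := D) (fun p => eta p < ω / 4)).symm
    have h4 : B.card = D.card + (B.filter fun p => ¬ psi c p < 2 * ω).card :=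
      (Finset.card_filter_add_card_filter_not (s := B) (fun p => psi c p < 2 * ω)).symm
    have h5 : (B.filter fun p => ¬ psi c p < 2 * ω).card ≤ (B.filter fun p => ¬ psi c p < ρ).card := by
      refine Finset.card_le_card fun p hp => ?_
      obtain ⟨h6, h7⟩ := Finset.mem_filter.1 hp
      refine Finset.mem_filter.2 ⟨h6, fun h8 => h7 (lt_of_lt_of_le h8 hρ2)⟩
    omega

end Pool.Agent.Lgq
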