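import Pool.Agent.Lgq.Stp
import Pool.Agent.Lgp.Seven

/-!
# An element which is trivial near `u` is trivial on a box with a fixed exponent of `a`
-/

namespace Pool.Agent.Lgq

open Pool.Agent.CTm Pool.Agent.Grm Pool.Agent.Lgp Filter Nat Topology

variable {S : Set (Equiv.Perm ℤ)} {M : Set (Ultrafilter ℤ)} {M0 : ℕ} {A : Finset (ℚ × ℚ)}
  {F : Finset ℚ} {a b L1 L2 : ℕ} {e : ℤ}

/-- reading on boxes -/
theorem R0.rd (R : R0 S M M0 A F a b L1 L2) {u : Ultrafilter ℤ} (hu : u ∈ M)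
    {l : List (Equiv.Perm ℤ)} (hl : Ltr S l) {L α β : ℕ} (hL : L1 ∣ L)
    (h : ∀ l', l' <:+ l → ∀ f ∈ F, ∀ k : ℤ, sl u l'.prod = f * ((a : ℚ) / b) ^ k →
      -(α : ℤ) ≤ k ∧ k ≤ β) : Rd M0 u l (L * a ^ α * b ^ β) := by
  intro l' hl'
  obtain ⟨f, hf, k, hk⟩ := R.slope u hu _ (hl.suffix hl').mem
  obtain ⟨t, ht⟩ := R.l1 f hf
  obtain ⟨h1, h2⟩ := h l' hl' f hf k hk
  obtain ⟨D, rfl⟩ := hL
  have e1 : f * ((L1 * D : ℕ) : ℚ) = (M0 : ℚ) * ((t * D : ℤ) : ℚ) := by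
    push_cast
    linear_combination (D : ℚ) * ht
  obtain ⟨t', ht'⟩ := box_mul R.a0 R.b0 e1 (k := k) (α := α) (β := β) (α' := 0) (β' := 0)
    (by omega) (by push_cast; omega)
  refine ⟨t', ?_⟩
  rw [hk, ht']
  simp

section path

variable {p : Ultrafilter ℤ → List (Equiv.Perm ℤ)} {x : Ultrafilter ℤ}

theorem pW_low (hCT : Subgroup.closure S ≤ CT) (hM : Mnl (Subgroup.closure S) M)
    (hp : ∀ x ∈ M, Ltr S (p x)) {δ K : ℚ} (hδ : 0 < δ) (hδ1 : δ ≤ 1) (hK : 1 ≤ K)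
    (h1 : ∀ x ∈ M, ∀ p', p' <:+ p x → δ ≤ hs e x p'.prod) (h2 : ∀ x ∈ M, K ≤ hs e x (p x).prod)
    (hx : x ∈ M) (d : ℕ) : (∀ p', p' <:+ pW p x d → δ ≤ hs e x p'.prod) ∧
      1 ≤ hs e x (pW p x d).prod ∧ (0 < d → K ≤ hs e x (pW p x d).prod) := by
  induction d with
  | zero =>
    refine ⟨fun p' hp' => ?_, ?_, fun h => absurd h (lt_irrefl _)⟩
    · change p' <:+ [] at hp'
      rw [List.suffix_nil.1 hp', List.prod_nil, hs_one]
      exact hδ1
    · change 1 ≤ hs e x ([] : List (Equiv.Perm ℤ)).prod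
      rw [List.prod_nil, hs_one]
  | succ d ih =>
    obtain ⟨i1, i2, _⟩ := ih
    have hy := px_mem hM hp hx d
    have hl := hp _ hy
    have hl' := pW_ltr hM hp hx d
    have e1 : hs e x (pW p x (d + 1)).prod = hs e (px p x d) (p (px p x d)).prod * hs e x (pW p x d).prod := by
      change hs e x (p (px p x d) ++ pW p x d).prod = _
      rw [List.prod_append, hs_mul (hCT hl.mem) (hCT hl'.mem), act_pW]
    have e2 : K ≤ hs e x (pW p x (d + 1)).prod := by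
      rw [e1]
      have := h2 _ hy
      calc K = K * 1 := (mul_one K).symm
        _ ≤ _ := mul_le_mul this i2 (by norm_num) (by linarith)
    refine ⟨fun p' hp' => ?_, hK.trans e2, fun _ => e2⟩
    change p' <:+ p (px p x d) ++ pW p x d at hp'
    rcases suffix_app hp' with h3 | ⟨y, hy', rfl⟩
    · exact i1 p' h3
    · rw [List.prod_append, hs_mul (hCT (hl.suffix hy').mem) (hCT hl'.mem), act_pW]
      have h4 := h1 _ hy y hy'
      exact h4.trans (le_mul_of_one_le_right (hδ.le.trans h4) i2)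

end path

/-- an element which is trivial near `u` is trivial on a box -/
theorem R1.box (R : R1 e S M M0 A F a b L1 L2) {u : Ultrafilter ℤ} (hu : u ∈ M) {f : Equiv.Perm ℤ}
    (hf : f ∈ Subgroup.closure S) : ∃ α β : ℕ, ∀ r : ℤ, cl r (L1 * a ^ α * b ^ β) ∈ u →
      ∀ n ∈ cl r (L1 * a ^ α * b ^ β), ((f n : ℤ) : ℚ) = sl u f * n + tr u f := by
  obtain ⟨C, hC, hC'⟩ := letter_hs R.hd R.e1
  obtain ⟨l, hl, rfl⟩ := list_of_closure hf
  have hl : Ltr S l := hl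
  have hw := fun (l' : List (Equiv.Perm ℤ)) (h : l' <:+ l) =>
    word_hs R.hCT hC hC' u l' (hl.suffix h)
      h.length_le
  have hC0 : 0 < C⁻¹ := inv_pos.2 (by linarith)
  obtain ⟨α, hα⟩ := lowe R.lam R.fpos (pow_pos hC0 l.length)
  obtain ⟨β, hβ⟩ := upe R.lam R.fpos (C ^ l.length)
  refine ⟨α, β, fun r hr => ?_⟩
  refine rd_aff R.hd R.hCT hl hr (R.rd hu hl dvd_rfl ?_)
  intro l' hl' f hf k hk
  obtain ⟨h1, h2⟩ := hw l' hl'
  unfold hs at h1 h2
  rw [hk] at h1 h2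
  exact ⟨hα f hf k h1, hβ f hf k h2⟩

/-- T7 -/
theorem R1.seven (R : R1 e S M M0 A F a b L1 L2) (hexp : NoExp S) : ∃ k1 : ℕ, ∀ u ∈ M,
    ∀ f ∈ Subgroup.closure S, Gm u f (1, 0) → ∃ β : ℕ, ∀ r : ℤ, cl r (L2 * a ^ k1 * b ^ β) ∈ u →
      ∀ n ∈ cl r (L2 * a ^ k1 * b ^ β), f n = n := by
  classical
  obtain ⟨δ, n0, hA⟩ := exists_asc R.hCT R.hd R.e1 R.mnl R.up
  obtain ⟨k1, hk1⟩ := lowe R.lam R.fpos hA.1
  refine ⟨k1, fun u hu f hf hfu => ?_⟩
  by_contra hcon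
  push Not at hcon
  -- the modulus of `f`
  obtain ⟨Qf, hQf, hfa⟩ := rcwa_of_CT (R.hCT hf)
  obtain ⟨α', β', hbox⟩ := R.box hu hf
  have hbox' : ∀ r : ℤ, cl r (L1 * a ^ α' * b ^ β') ∈ u → ∀ n ∈ cl r (L1 * a ^ α' * b ^ β'),
      f n = n := by
    intro r hr n hn
    have h1 := hbox r hr n hn
    rw [sl_eq hfu, tr_eq hfu] at h1
    have h2 : ((f n : ℤ) : ℚ) = n := by rw [h1]; ring
    exact_mod_cast h2
  have ha0 : 0 < a := R.a0
  have hbp : ∀ n : ℕ, 0 < b ^ n := fun n => Nat.pow_pos R.b0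
  have hap : ∀ n : ℕ, 0 < a ^ n := fun n => Nat.pow_pos ha0
  set β0 : ℕ := max β' Qf with hβ0
  obtain ⟨rs, hrs, ns, hns, hmove⟩ := hcon β0
  set Q0 : ℕ := L2 * a ^ (max α' k1) * b ^ β0 with hQ0
  have hQ0p : 0 < Q0 := Nat.mul_pos (Nat.mul_pos R.L20 (hap _)) (hbp _)
  obtain ⟨r0, hr0⟩ := exists_cl u Q0 hQ0p
  have hd1 : L1 * a ^ α' * b ^ β' ∣ Q0 :=
    mul_dvd_mul (mul_dvd_mul R.l12 (pow_dvd_pow a (le_max_left _ _))) (pow_dvd_pow b (le_max_left _ _))
  have hd2 : L2 * a ^ k1 * b ^ β0 ∣ Q0 :=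
    mul_dvd_mul (mul_dvd_mul dvd_rfl (pow_dvd_pow a (le_max_right _ _))) dvd_rfl
  have hc1 : cl r0 (L1 * a ^ α' * b ^ β') ∈ u := cl_coarse hr0 hd1
  have hf0 := hbox' r0 hc1
  have hc2 : cl r0 Q0 ⊆ cl rs (L2 * a ^ k1 * b ^ β0) := cl_mem_sub hrs hr0 hd2
  obtain ⟨K, hK1, hK⟩ := lowe' R.lam R.fpos α'
  obtain ⟨n1, hstep⟩ := exists_step R.hCT R.hd R.e1 R.mnl hA hu hr0 K
  obtain ⟨hδ, hδ1, -⟩ := hA
  choose! p hp1 hp2 hp3 hp4 hp5 using hstep
  obtain ⟨C, hC, hC'⟩ := letter_hs R.hd R.e1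
  refine path_exp R.fin hexp hf n1 fun m => ?_
  refine ⟨fun i => (pW p u i).prod, fun i => ?_, fun i him => ?_⟩
  · have e1 : (pW p u i).prod * ((pW p u (i + 1)).prod)⁻¹ = ((p (px p u i)).prod)⁻¹ := by
      change (pW p u i).prod * ((p (px p u i) ++ pW p u i).prod)⁻¹ = _
      rw [List.prod_append]
      group
    rw [e1]
    have hy := px_mem R.mnl hp1 hu i
    exact ball_inv ⟨p (px p u i), hp2 _ hy, hp1 _ hy, rfl⟩
  · have hy := px_mem R.mnl hp1 hu i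
    set y := px p u i with hydef
    have hlow := pW_low R.hCT R.mnl hp1 hδ hδ1 hK1 hp3 hp4 hy
    have hc0 : ∀ j, cl r0 Q0 ∈ px p u j := by
      intro j
      cases j with
      | zero => exact hr0
      | succ j => exact hp5 _ (px_mem R.mnl hp1 hu j)
    -- the bound for the slopes
    obtain ⟨Γ0, hΓ0⟩ := upe R.lam R.fpos (C ^ (n1 * m))
    set Γ : ℕ := Γ0 + β0 with hΓ
    set Q1 : ℕ := L2 * a ^ k1 * b ^ Γ with hQ1
    have hQ1p : 0 < Q1 := Nat.mul_pos (Nat.mul_pos R.L20 (hap _)) (hbp _)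
    obtain ⟨yi, hyi⟩ := exists_cl y Q1 hQ1p
    have hd3 : L2 * a ^ k1 * b ^ β0 ∣ Q1 := mul_dvd_mul dvd_rfl (pow_dvd_pow b (by omega))
    have hyi2 : yi ∈ cl rs (L2 * a ^ k1 * b ^ β0) := by
      have h1 : cl rs (L2 * a ^ k1 * b ^ β0) ∈ y := mem_of_superset (hc0 i) hc2
      exact cl_mem_sub h1 hyi hd3 (cl_self _ _)
    -- the moved point
    obtain ⟨n', hn'1, hn'2⟩ : ∃ n : ℤ, n ∈ cl ns Qf ∧ n ∈ cl yi Q1 := by
      refine crt fun d h1 h2 => ?_
      have h3 : d ∣ L2 * a ^ k1 * b ^ Qf := dvd_mul_pow R.b0 hQf h2 h1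
      have h4 : d ∣ L2 * a ^ k1 * b ^ β0 := h3.trans (mul_dvd_mul dvd_rfl (pow_dvd_pow b (le_max_right _ _)))
      have h5 := dvd_sub hns hyi2
      rw [sub_sub_sub_cancel_right] at h5
      exact (Int.natCast_dvd_natCast.2 h4).trans h5
    obtain ⟨σ, τ, hσ, hστ⟩ := hfa ns
    obtain ⟨n, hn1, hn2, hn3⟩ : ∃ n : ℤ, n ∈ cl ns Qf ∧ n ∈ cl yi Q1 ∧ f n ≠ n := by
      by_cases h1 : f n' = n'
      · have hm1 : n' + ((Qf * Q1 : ℕ) : ℤ) ∈ cl ns Qf := by
          rw [← cl_eq hn'1, mem_cl, add_sub_cancel_left]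
          exact Int.natCast_dvd_natCast.2 (Dvd.intro _ rfl)
        have hm2 : n' + ((Qf * Q1 : ℕ) : ℤ) ∈ cl yi Q1 := by
          rw [← cl_eq hn'2, mem_cl, add_sub_cancel_left]
          exact Int.natCast_dvd_natCast.2 (Dvd.intro_left _ rfl)
        refine ⟨_, hm1, hm2, fun h2 => hmove ?_⟩
        have e1 := hστ n' hn'1
        have e2 := hστ _ hm1
        have e3 := hστ ns (by simp)
        rw [h1] at e1
        rw [h2] at e2
        have hpos : (0 : ℚ) < ((Qf * Q1 : ℕ) : ℚ) := by exact_mod_cast Nat.mul_pos hQf hQ1p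
        have e4 : (σ - 1) * ((Qf * Q1 : ℕ) : ℚ) = 0 := by
          push_cast at e2 ⊢
          linear_combination e1 - e2
        have e5 : σ = 1 := by
          rcases mul_eq_zero.1 e4 with h | h
          · linarith
          · exact absurd h hpos.ne'
        rw [e5] at e1 e3
        have e6 : ((f ns : ℤ) : ℚ) = ns := by
          rw [e3]
          linarith
        exact_mod_cast e6
      · exact ⟨n', hn'1, hn'2, h1⟩
    refine ⟨((pW p u i).prod)⁻¹ n, ?_, fun j hij hjm => ?_⟩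
    · have e1 : (pW p u i).prod (((pW p u i).prod)⁻¹ n) = n := (pW p u i).prod.apply_symm_apply n
      rw [e1]
      exact hn3
    · obtain ⟨d, rfl⟩ : ∃ d, j = i + d := ⟨j - i, by omega⟩
      have e1 : (pW p u (i + d)).prod (((pW p u i).prod)⁻¹ n) = (pW p y d).prod n := by
        rw [← pW_add, Equiv.Perm.mul_apply]
        congr 1
        exact (pW p u i).prod.apply_symm_apply n
      rw [e1]
      obtain ⟨l1, l2, l3⟩ := hlow d
      have hltr := pW_ltr R.mnl hp1 hy d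
      have hlen := pW_len R.mnl hp1 hp2 hy d
      have hrd : Rd M0 y (pW p y d) Q1 := by
        refine R.rd hy hltr R.l12 ?_
        intro l' hl' g hg k hk
        have h1 := l1 l' hl'
        have h2 := (word_hs R.hCT hC hC' y l'
          (hltr.suffix hl') (n := n1 * m) (hl'.length_le.trans (hlen.trans
            (Nat.mul_le_mul_left _ (by omega))))).2
        unfold hs at h1 h2
        rw [hk] at h1 h2
        have := hΓ0 g hg k h2
        exact ⟨hk1 g hg k h1, by omega⟩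
      -- a point of the class of `y` which goes to the class of `u`
      have hmem : cl r0 Q0 ∈ act (pW p y d).prod y := by
        rw [act_pW, hydef, ← px_add]
        exact hc0 _
      obtain ⟨z, hz1, hz2⟩ := Lgp.nonempty_of_mem (inter_mem hyi (mem_act.1 hmem))
      have e2 := rd_diff R.hd R.hCT hltr hyi hrd n hn2 z hz1
      obtain ⟨g, hg, k, hk⟩ := R.slope y hy _ hltr.mem
      have h3 := l3 (by omega)
      have h4 := (word_hs R.hCT hC hC' y _
        hltr (n := n1 * m) (hlen.trans (Nat.mul_le_mul_left _ (by omega)))).2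
      unfold hs at h3 h4
      rw [hk] at h3 h4
      have h5 := hK g hg k h3
      have h6 := hΓ0 g hg k h4
      obtain ⟨t, ht⟩ := R.l2 g hg
      obtain ⟨t', ht'⟩ := box_mul R.a0 R.b0 ht (k := k) (α := k1) (β := Γ) (α' := α') (β' := β')
        (by omega) (by have := le_max_left β' Qf; omega)
      obtain ⟨s, hs⟩ : ∃ s : ℤ, n - z = Q1 * s := by
        have := dvd_sub hn2 hz1
        rwa [sub_sub_sub_cancel_right] at this
      refine hf0 _ ?_
      have hz3 : (pW p y d).prod z ∈ cl r0 (L1 * a ^ α' * b ^ β') :=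
        cl_sub (cl_self _ _) hd1 hz2
      rw [← cl_eq hz3, mem_cl]
      refine ⟨t' * s, ?_⟩
      have e3 : ((((pW p y d).prod n - (pW p y d).prod z : ℤ)) : ℚ) =
          ((((L1 * a ^ α' * b ^ β' : ℕ) : ℤ) * (t' * s) : ℤ) : ℚ) := by
        have hs' : (n : ℚ) - z = Q1 * s := by exact_mod_cast hs
        rw [hk, hs'] at e2
        push_cast at e2 ht' ⊢
        rw [e2]
        rw [hQ1]
        push_cast
        linear_combination (s : ℚ) * ht'
      exact_mod_cast e3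

end Pool.Agent.Lgq
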